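import Pool.Agent.TH366.RC.Moves
import Pool.Agent.TH698.NagT3

/-! Cutting a right triangle by a line of real slope through its top vertex. -/

set_option autoImplicit false

namespace Pool.Agent.TH366.RC

open Finset Pool.Agent.TH176.Nag

/-- a real functional separating two finite sets of lattice points may be replaced by an integral
one -/
theorem exists_int_sep {S U : Set (ℤ × ℤ)} (hS : S.Finite) (hU : U.Finite) (p q : ℝ)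
    (hcut : ∀ m ∈ S, ∀ m' ∈ U, p * m.1 + q * m.2 < p * m'.1 + q * m'.2) :
    ∃ a b : ℤ, ∀ m ∈ S, ∀ m' ∈ U, a * m.1 + b * m.2 < a * m'.1 + b * m'.2 := by
  let g : (ℤ × ℤ) × (ℤ × ℤ) → ℝ := fun z =>
    (|(z.2.1 : ℝ) - z.1.1| + |(z.2.2 : ℝ) - z.1.2|) /
      (p * z.2.1 + q * z.2.2 - (p * z.1.1 + q * z.1.2))
  obtain ⟨M, hM⟩ := ((hS.prod hU).image g).bddAbove
  obtain ⟨N, hN⟩ := exists_nat_gt (max M 0)
  have hN0 : (0 : ℝ) < N := lt_of_le_of_lt (le_max_right _ _) hN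
  have hNM : M < N := lt_of_le_of_lt (le_max_left _ _) hN
  refine ⟨⌊N * p⌋, ⌊N * q⌋, ?_⟩
  rintro ⟨x, y⟩ hm ⟨x', y'⟩ hm'
  have h1 := hcut _ hm _ hm'
  simp only at h1
  have h2 : g ((x, y), (x', y')) ≤ M := hM ⟨_, Set.mk_mem_prod hm hm', rfl⟩
  simp only [g] at h2
  have hD : 0 < p * x' + q * y' - (p * x + q * y) := by linarith
  rw [div_le_iff₀ hD] at h2
  have h3 : M * (p * x' + q * y' - (p * x + q * y)) < N * (p * x' + q * y' - (p * x + q * y)) :=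
    mul_lt_mul_of_pos_right hNM hD
  have a1 := Int.floor_le (N * p)
  have a2 := Int.lt_floor_add_one (N * p)
  have b1 := Int.floor_le (N * q)
  have b2 := Int.lt_floor_add_one (N * q)
  have c1 : (N * p - ⌊N * p⌋) * ((x' : ℝ) - x) ≤ |(x' : ℝ) - x| := by
    have h5 : |(N * p - ⌊N * p⌋ : ℝ)| ≤ 1 := by
      rw [abs_le]; constructor <;> linarith
    calc (N * p - ⌊N * p⌋) * ((x' : ℝ) - x) ≤ |(N * p - ⌊N * p⌋) * ((x' : ℝ) - x)| := le_abs_self _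
      _ = |(N * p - ⌊N * p⌋ : ℝ)| * |(x' : ℝ) - x| := abs_mul _ _
      _ ≤ 1 * |(x' : ℝ) - x| := mul_le_mul_of_nonneg_right h5 (abs_nonneg _)
      _ = |(x' : ℝ) - x| := one_mul _
  have c2 : (N * q - ⌊N * q⌋) * ((y' : ℝ) - y) ≤ |(y' : ℝ) - y| := by
    have h5 : |(N * q - ⌊N * q⌋ : ℝ)| ≤ 1 := by
      rw [abs_le]; constructor <;> linarith
    calc (N * q - ⌊N * q⌋) * ((y' : ℝ) - y) ≤ |(N * q - ⌊N * q⌋) * ((y' : ℝ) - y)| := le_abs_self _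
      _ = |(N * q - ⌊N * q⌋ : ℝ)| * |(y' : ℝ) - y| := abs_mul _ _
      _ ≤ 1 * |(y' : ℝ) - y| := mul_le_mul_of_nonneg_right h5 (abs_nonneg _)
      _ = |(y' : ℝ) - y| := one_mul _
  have h6 : ((⌊N * p⌋ * x + ⌊N * q⌋ * y : ℤ) : ℝ) < ((⌊N * p⌋ * x' + ⌊N * q⌋ * y' : ℤ) : ℝ) := by
    push_cast
    linarith
  simp only
  exact_mod_cast h6

theorem Emp_cutR {ι κ : Type} [Finite ι] [Finite κ] {w : ι → ℕ} {v : κ → ℕ} {S U : Set (ℤ × ℤ)}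
    (hS : S.Finite) (hU : U.Finite) (hS0 : ∀ m ∈ S, 0 ≤ m.1 ∧ 0 ≤ m.2)
    (hU0 : ∀ m ∈ U, 0 ≤ m.1 ∧ 0 ≤ m.2) (p q : ℝ)
    (hcut : ∀ m ∈ S, ∀ m' ∈ U, p * m.1 + q * m.2 < p * m'.1 + q * m'.2)
    (h1 : Emp w S) (h2 : Emp v U) : Emp (Sum.elim w v) (S ∪ U) := by
  obtain ⟨a, b, hab⟩ := exists_int_sep hS hU p q hcut
  exact Pool.Agent.TH698.NagT3.Emp_cut hS hU hS0 hU0 a b hab h1 h2

theorem finite_tri {κ c : ℝ} (hκ : 0 < κ) :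
    ({m : ℤ × ℤ | 0 ≤ m.1 ∧ 0 ≤ m.2 ∧ (m.1 : ℝ) + κ * m.2 ≤ c}).Finite := by
  refine ((Set.finite_Icc (0 : ℤ) ⌊c⌋).prod (Set.finite_Icc (0 : ℤ) ⌊c / κ⌋)).subset ?_
  rintro ⟨x, y⟩ ⟨hx, hy, hxy⟩
  simp only at hx hy hxy
  have hx' : (0 : ℝ) ≤ x := by exact_mod_cast hx
  have hy' : (0 : ℝ) ≤ y := by exact_mod_cast hy
  have hκy : 0 ≤ κ * y := mul_nonneg hκ.le hy'
  refine ⟨⟨hx, Int.le_floor.2 (by linarith)⟩, ⟨hy, Int.le_floor.2 ?_⟩⟩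
  rw [le_div_iff₀ hκ]
  linarith

/-- cutting a right triangle -/
theorem cutT {ι κ : Type} [Finite ι] [Finite κ] {w : ι → ℕ} {v : κ → ℕ} {σ ρ h : ℝ} (hσ : 0 < σ)
    (hρ : 0 < ρ) (hh : 0 < h) (h1 : ∀ α : ℝ, Emp w (Reg α (α + h * σ) 0 σ))
    (h2 : ∀ α : ℝ, Emp v (Reg α (α + h * ρ) (-σ) (σ + ρ))) (α : ℝ) :
    Emp (Sum.elim w v) (Reg α (α + h * (σ + ρ)) 0 (σ + ρ)) := by
  obtain ⟨a, ha⟩ : ∃ a : ℝ, a = α - ⌈α⌉ := ⟨_, rfl⟩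
  have ha0 : a ≤ 0 := by rw [ha]; linarith [Int.le_ceil α]
  have h1' : Emp w {m : ℤ × ℤ | 0 ≤ m.1 ∧ 0 ≤ m.2 ∧ (m.1 : ℝ) + σ * m.2 ≤ a + h * σ} := by
    refine (h1 a).mono ?_
    rintro ⟨x, y⟩ ⟨hx, hy, hxy⟩
    simp only at hx hy hxy
    have hx' : (0 : ℝ) ≤ x := by exact_mod_cast hx
    refine ⟨hy, ?_, ?_⟩
    · simp only; linarith
    · simp only; linarith
  have h3 : Emp v {m : ℤ × ℤ | 0 ≤ m.1 ∧ 0 ≤ m.2 ∧
      a + h * σ < (m.1 : ℝ) + σ * m.2 ∧ (m.1 : ℝ) + (σ + ρ) * m.2 ≤ a + h * (σ + ρ)} := by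
    refine (h2 (a + h * σ)).mono ?_
    rintro ⟨x, y⟩ ⟨hx, hy, hxy, hxy'⟩
    simp only at hx hy hxy hxy'
    refine ⟨hy, ?_, ?_⟩
    · simp only; linarith
    · simp only; linarith
  have h4 := Emp_cutR (finite_tri (c := a + h * σ) hσ)
    ((finite_tri (κ := σ + ρ) (c := a + h * (σ + ρ)) (by linarith)).subset (by
      rintro ⟨x, y⟩ ⟨hx, hy, hxy, hxy'⟩
      exact ⟨hx, hy, hxy'⟩))
    (fun m hm => ⟨hm.1, hm.2.1⟩) (fun m hm => ⟨hm.1, hm.2.1⟩) 1 σ (by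
      rintro ⟨x, y⟩ ⟨-, -, hxy⟩ ⟨x', y'⟩ ⟨-, -, hxy', -⟩
      simp only at hxy hxy' ⊢
      linarith) h1' h3
  refine h4.comap 1 0 0 1 (-⌈α⌉) 0 (by norm_num) ?_
  rintro ⟨x, y⟩ ⟨hy, hx, hxy⟩
  simp only at hx hy hxy
  have hy' : (0 : ℝ) ≤ y := by exact_mod_cast hy
  have h5 : ⌈α⌉ ≤ x := Int.ceil_le.2 (by linarith)
  have e1 : ((1 * x + 0 * y + -⌈α⌉ : ℤ) : ℝ) = x - ⌈α⌉ := by push_cast; ring
  have e2 : ((0 * x + 1 * y + 0 : ℤ) : ℝ) = y := by push_cast; ring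
  by_cases hc : (x : ℝ) - ⌈α⌉ + σ * y ≤ a + h * σ
  · left
    refine ⟨by simp only; omega, by simp only; omega, ?_⟩
    simp only
    rw [e1, e2]
    exact hc
  · right
    push Not at hc
    refine ⟨by simp only; omega, by simp only; omega, ?_, ?_⟩
    · simp only
      rw [e1, e2]
      exact hc
    · simp only
      rw [e1, e2, ha]
      linarith

theorem Emp_reindex {ι κ : Type} (e : κ ≃ ι) {w : ι → ℕ} {S : Set (ℤ × ℤ)} (h : Emp w S) :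
    Emp (fun j => w (e j)) S := by
  obtain ⟨K, _, _, x, y, hx, hy, hf⟩ := h
  refine ⟨K, inferInstance, inferInstance, fun j => x (e j), fun j => y (e j), fun j => hx _,
    fun j => hy _, fun f h1 h2 => hf f h1 fun i => ?_⟩
  have := h2 (e.symm i)
  simpa using this

end Pool.Agent.TH366.RC
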