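import Pool.Agent.TH366.RC.Integral
import Mathlib.NumberTheory.Harmonic.Bounds

/-! Integral multiplicities `1 ≤ l_i ≤ M` with `50 M ^ 3 (2 + log M) ≤ ∑ l_i ^ 2`. -/

set_option autoImplicit false

namespace Pool.Agent.TH366.RC

open Finset

/-- the sum of the squares -/
def area (S : Multiset ℝ) : ℝ := (S.map fun x => x ^ 2).sum

theorem area_add (S S' : Multiset ℝ) : area (S + S') = area S + area S' := by
  unfold area
  rw [Multiset.map_add, Multiset.sum_add]

theorem area_replicate (n : ℕ) (x : ℝ) : area (Multiset.replicate n x) = n * x ^ 2 := by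
  unfold area
  rw [Multiset.map_replicate, Multiset.sum_replicate, nsmul_eq_mul]

/-- a piece: composes rectangles of the heights `2 M` and `4 M`, area at least `24 M ^ 2` -/
def Piece (M : ℝ) (P : Multiset ℝ) : Prop :=
  Fill (2 * M) P ∧ Fill (4 * M) P ∧ 24 * M ^ 2 ≤ area P

theorem Piece.replicate {w M : ℝ} {n : ℕ} (hw : 0 < w) (hwM : w ≤ M)
    (hn : 24 * M ^ 2 ≤ n * w ^ 2) : Piece M (Multiset.replicate n w) := by
  have hM : 0 < M := by linarith
  refine ⟨Or.inr ⟨List.replicate n w, Multiset.coe_replicate _ _, ?_⟩, Fill.block hw hwM hn, ?_⟩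
  · rw [Multiset.map_replicate, Multiset.sum_replicate, nsmul_eq_mul]
    refine Fits.block (by positivity) hw ?_ ?_ ?_
    · field_simp
    · linarith
    · nlinarith
  · rw [area_replicate]
    exact hn

theorem Fill.sumL {h : ℝ} (Ps : List (Multiset ℝ)) (hP : ∀ P ∈ Ps, Fill h P) : Fill h Ps.sum := by
  induction Ps with
  | nil => exact Or.inl rfl
  | cons P Ps ih =>
    rw [List.sum_cons]
    exact (hP P (by simp)).add (ih fun Q hQ => hP Q (by simp [hQ]))

theorem area_sumL {M : ℝ} (Ps : List (Multiset ℝ)) (hP : ∀ P ∈ Ps, Piece M P) :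
    24 * M ^ 2 * Ps.length ≤ area Ps.sum := by
  induction Ps with
  | nil => simp [area]
  | cons P Ps ih =>
    rw [List.sum_cons, area_add, List.length_cons]
    have h1 := (hP P (by simp)).2.2
    have h2 := ih fun Q hQ => hP Q (by simp [hQ])
    push_cast
    linarith

/-- `k` points of multiplicity `u` are absorbed by `p` pieces -/
theorem Fill.hostPieces {u M : ℝ} {k : ℕ} (hM : 0 < M) (hu : 0 < u) (huM : u ≤ M) (hk : 1 ≤ k)
    (Ps : List (Multiset ℝ)) (hP : ∀ P ∈ Ps, Piece M P) (hne : 1 ≤ Ps.length)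
    (hku : k * u ≤ 12 * M * Ps.length) :
    Fill (4 * M) (Multiset.replicate k u + Ps.sum) := by
  have hA := area_sumL Ps hP
  have hne' : (1 : ℝ) ≤ Ps.length := by exact_mod_cast hne
  have hM2 : 0 < M ^ 2 := by positivity
  have hA24 : 24 * M ^ 2 ≤ area Ps.sum := by nlinarith
  rcases Fill.sumL (h := 2 * M) Ps fun P h => (hP P h).1 with h0 | ⟨L', hL', h1⟩
  · exfalso
    rw [h0] at hA24
    simp only [area, Multiset.map_zero, Multiset.sum_zero] at hA24
    linarith
  have h1' : Fits (area Ps.sum / (2 * M)) (4 * M / 2) L' := by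
    have e : 4 * M / 2 = 2 * M := by ring
    rw [e]
    exact h1
  have hA0 : 0 ≤ (k : ℝ) * u ^ 2 := by positivity
  have hA1 : 0 < (k : ℝ) * u ^ 2 + area Ps.sum := by linarith
  right
  refine ⟨List.replicate k u ++ L', ?_, ?_⟩
  · rw [← Multiset.coe_add, Multiset.coe_replicate, hL']
  · have e : ((Multiset.replicate k u + Ps.sum).map fun x => x ^ 2).sum =
        (k : ℝ) * u ^ 2 + area Ps.sum := by
      have := area_add (Multiset.replicate k u) Ps.sum
      rw [area_replicate] at this
      exact this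
    rw [e]
    refine Fits.corner _ _ _ _ _ _ (by positivity) (by positivity) hu hk (by linarith) ?_ ?_ ?_ h1'
    · rw [← mul_div_assoc, le_div_iff₀ (by positivity)]
      nlinarith
    · rw [← mul_div_assoc, le_div_iff₀ (by positivity)]
      have h5 : 2 * M * (k * u) ≤ area Ps.sum := by
        have : 2 * M * (k * u) ≤ 2 * M * (12 * M * Ps.length) :=
          mul_le_mul_of_nonneg_left hku (by positivity)
        linarith
      nlinarith
    · field_simp
      ring

/-- rare values are distributed over a list of pieces -/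
theorem Fill.hostList {M : ℕ} (hM : 1 ≤ M) {n p : ℕ → ℕ} : ∀ (R : List ℕ),
    (∀ u ∈ R, 1 ≤ u ∧ u ≤ M ∧ 1 ≤ n u ∧ 1 ≤ p u ∧ n u * u ≤ 12 * M * p u) →
    ∀ Ps : List (Multiset ℝ), (∀ P ∈ Ps, Piece M P) → (R.map p).sum ≤ Ps.length →
      Fill (4 * (M : ℝ)) ((R.map fun u : ℕ => Multiset.replicate (n u) (u : ℝ)).sum + Ps.sum) := by
  have hM' : (0 : ℝ) < M := by exact_mod_cast hM
  intro R
  induction R with
  | nil =>
    intro _ Ps hP _
    rw [List.map_nil, List.sum_nil, zero_add]
    exact Fill.sumL Ps fun P h => (hP P h).2.1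
  | cons u R ih =>
    intro hR Ps hP hlen
    rw [List.map_cons, List.sum_cons] at hlen
    obtain ⟨h1, h2, h3, h4, h5⟩ := hR u (by simp)
    have hlt : (Ps.take (p u)).length = p u := by
      rw [List.length_take]
      omega
    have k1 := Fill.hostPieces (M := (M : ℝ)) (u := (u : ℝ)) (k := n u) hM'
      (by exact_mod_cast h1) (by exact_mod_cast h2) h3 (Ps.take (p u))
      (fun P h => hP P (List.mem_of_mem_take h)) (by rw [hlt]; exact h4)
      (by rw [hlt]; exact_mod_cast h5)
    have k2 := ih (fun y hy => hR y (by simp [hy])) (Ps.drop (p u))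
      (fun P h => hP P (List.mem_of_mem_drop h)) (by
        rw [List.length_drop]
        omega)
    have k3 := k1.add k2
    rw [List.map_cons, List.sum_cons]
    have e : Ps.sum = (Ps.take (p u)).sum + (Ps.drop (p u)).sum := by
      rw [← List.sum_append, List.take_append_drop]
    rw [e]
    convert k3 using 1
    abel

/-- the pieces of one frequent value -/
theorem exists_pieces {M x n r : ℕ} (hx : 1 ≤ x) (hxM : x ≤ M) (hr : 24 * M ^ 2 ≤ r * x ^ 2)
    (hr0 : 1 ≤ r) (hrn : r ≤ n) : ∃ Ps : List (Multiset ℝ), (∀ P ∈ Ps, Piece (M : ℝ) P) ∧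
      Ps.length = n / r ∧ Ps.sum = Multiset.replicate n (x : ℝ) := by
  have hx' : (0 : ℝ) < x := by exact_mod_cast hx
  have hxM' : (x : ℝ) ≤ M := by exact_mod_cast hxM
  have hq : 1 ≤ n / r := (Nat.one_le_div_iff (by omega)).2 hrn
  obtain ⟨q, hq'⟩ : ∃ q, n / r = q + 1 := ⟨n / r - 1, by omega⟩
  have hqr : (q + 1) * r ≤ n := by
    rw [← hq']
    exact Nat.div_mul_le_self n r
  obtain ⟨t, ht⟩ : ∃ t, q * r + t = n := ⟨n - q * r, by
    have : q * r ≤ (q + 1) * r := Nat.mul_le_mul_right _ (Nat.le_succ q)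
    omega⟩
  have htr : r ≤ t := by
    have : (q + 1) * r = q * r + r := by ring
    omega
  refine ⟨List.replicate q (Multiset.replicate r (x : ℝ)) ++ [Multiset.replicate t (x : ℝ)],
    ?_, ?_, ?_⟩
  · intro P hP
    rcases List.mem_append.1 hP with h | h
    · rw [List.eq_of_mem_replicate h]
      exact Piece.replicate hx' hxM' (by exact_mod_cast hr)
    · rw [List.mem_singleton.1 h]
      refine Piece.replicate hx' hxM' ?_
      have : 24 * M ^ 2 ≤ t * x ^ 2 := hr.trans (Nat.mul_le_mul_right _ htr)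
      exact_mod_cast this
  · rw [List.length_append, List.length_replicate, List.length_singleton, hq']
  · rw [List.sum_append, List.sum_replicate, List.sum_singleton, ← ht]
    simp only [← Multiset.nsmul_singleton]
    rw [smul_smul, ← add_smul]

theorem sum_inv_le (M : ℕ) : ∑ x ∈ Finset.Icc 1 M, (1 : ℝ) / x ≤ 1 + Real.log M := by
  have h1 := harmonic_le_one_add_log M
  rw [harmonic_eq_sum_Icc] at h1
  push_cast at h1
  simpa only [one_div] using h1

/-- all integral multiplicities `l_i ≤ M` with `50 M ^ 3 (2 + log M) ≤ ∑ l_i ^ 2` -/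
theorem Fits.third {c : ℝ} {L : List ℕ} {M : ℕ} (hL : ∀ x ∈ L, 1 ≤ x ∧ x ≤ M)
    (h50 : 50 * (M : ℝ) ^ 3 * (2 + Real.log M) ≤ (((L.map fun x => x ^ 2).sum : ℕ) : ℝ))
    (hc : 0 < c) (hsq : (((L.map fun x => x ^ 2).sum : ℕ) : ℝ) = c ^ 2) :
    Fits c c (L.map fun x : ℕ => (x : ℝ)) := by
  classical
  have hLne : L ≠ [] := by
    rintro rfl
    simp at hsq
    have : 0 < c ^ 2 := by positivity
    rw [← hsq] at this
    exact lt_irrefl _ this
  obtain ⟨x₀, hx₀⟩ := List.exists_mem_of_ne_nil L hLne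
  have hM : 1 ≤ M := (hL x₀ hx₀).1.trans (hL x₀ hx₀).2
  have hM1 : (1 : ℝ) ≤ M := by exact_mod_cast hM
  have hlog : 0 ≤ Real.log M := Real.log_nonneg hM1
  rcases Nat.lt_or_ge M 2 with hM2 | hM2
  · refine Fits.fourth hL ?_ hc hsq
    have hM1 : M = 1 := by omega
    subst hM1
    have : (49 : ℝ) ≤ (((L.map fun x => x ^ 2).sum : ℕ) : ℝ) := by
      refine le_trans ?_ h50
      simp
      norm_num
    simpa using (by exact_mod_cast this : 49 ≤ (L.map fun x => x ^ 2).sum)
  · have hsq' : ((L.map fun x : ℕ => (x : ℝ)).map fun x => x ^ 2).sum = c ^ 2 := by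
      rw [← hsq]
      have : ∀ l : List ℕ, ((l.map fun x : ℕ => (x : ℝ)).map fun x => x ^ 2).sum =
          (((l.map fun x => x ^ 2).sum : ℕ) : ℝ) := by
        intro l
        induction l with
        | nil => simp
        | cons a l ih =>
          rw [List.map_cons, List.map_cons, List.sum_cons, ih, List.map_cons, List.sum_cons]
          push_cast
          ring
      exact this L
    obtain ⟨V, hV⟩ : ∃ V : Finset ℕ, V = L.toFinset := ⟨_, rfl⟩
    have hVm : ∀ x ∈ V, 1 ≤ x ∧ x ≤ M := by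
      intro x hx
      rw [hV, List.mem_toFinset] at hx
      exact hL x hx
    have hVI : V ⊆ Finset.Icc 1 M := fun x hx => Finset.mem_Icc.2 (hVm x hx)
    have hcard : V.card ≤ M := by
      have := Finset.card_le_card hVI
      simpa using this
    obtain ⟨n, hn⟩ : ∃ n : ℕ → ℕ, ∀ x, n x = L.count x := ⟨_, fun _ => rfl⟩
    obtain ⟨rr, hrr⟩ : ∃ rr : ℕ → ℕ, ∀ x, rr x = 24 * M ^ 2 / x ^ 2 + 1 := ⟨_, fun _ => rfl⟩
    obtain ⟨p, hp⟩ : ∃ p : ℕ → ℕ, ∀ x, p x = n x * x / (12 * M) + 1 := ⟨_, fun _ => rfl⟩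
    have hpos : ∀ x ∈ V, 0 < x ^ 2 := fun x hx => pow_pos (hVm x hx).1 2
    have hx2 : ∀ x ∈ V, x ^ 2 ≤ M ^ 2 := fun x hx => Nat.pow_le_pow_left (hVm x hx).2 2
    have hrr1 : ∀ x ∈ V, 24 * M ^ 2 ≤ rr x * x ^ 2 ∧ rr x * x ^ 2 ≤ 25 * M ^ 2 := by
      intro x hx
      have h1 : 24 * M ^ 2 < x ^ 2 * (24 * M ^ 2 / x ^ 2 + 1) := Nat.lt_mul_div_succ _ (hpos x hx)
      have h2 : 24 * M ^ 2 / x ^ 2 * x ^ 2 ≤ 24 * M ^ 2 := Nat.div_mul_le_self _ _
      have h3 := hx2 x hx
      rw [hrr]
      constructor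
      · nlinarith
      · nlinarith
    have hn1 : ∀ x ∈ V, 1 ≤ n x := by
      intro x hx
      rw [hV, List.mem_toFinset] at hx
      rw [hn]
      exact List.count_pos_iff.2 hx
    have htot : ∑ x ∈ V, n x * x ^ 2 = (L.map fun x => x ^ 2).sum := by
      rw [Finset.sum_list_map_count, hV]
      exact Finset.sum_congr rfl fun x _ => by rw [hn, smul_eq_mul]
    obtain ⟨R, hR⟩ : ∃ R : Finset ℕ, R = V.filter fun x => n x < rr x := ⟨_, rfl⟩
    obtain ⟨Q, hQ⟩ : ∃ Q : Finset ℕ, Q = V.filter fun x => ¬ n x < rr x := ⟨_, rfl⟩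
    have hRQ : R.card + Q.card = V.card := by
      rw [hR, hQ]
      exact Finset.card_filter_add_card_filter_not _
    have hRV : R ⊆ V := by rw [hR]; exact Finset.filter_subset _ _
    have hRm : ∀ u ∈ R, n u * u ^ 2 ≤ 24 * M ^ 2 := by
      intro u hu
      rw [hR, Finset.mem_filter] at hu
      have h1 : n u ≤ 24 * M ^ 2 / u ^ 2 := by
        have := hu.2
        rw [hrr] at this
        omega
      exact (Nat.mul_le_mul_right _ h1).trans (Nat.div_mul_le_self _ _)
    have hQm : ∀ x ∈ Q, x ∈ V ∧ rr x ≤ n x := by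
      intro x hx
      rw [hQ, Finset.mem_filter] at hx
      exact ⟨hx.1, not_lt.1 hx.2⟩
    -- all pieces
    have hpieces : ∀ W : Finset ℕ, W ⊆ Q → ∃ Ps : List (Multiset ℝ),
        (∀ P ∈ Ps, Piece (M : ℝ) P) ∧ Ps.length = ∑ x ∈ W, n x / rr x ∧
        Ps.sum = ∑ x ∈ W, Multiset.replicate (n x) (x : ℝ) := by
      intro W
      induction W using Finset.induction_on with
      | empty => intro _; exact ⟨[], by simp, by simp, by simp⟩
      | insert x W hxW ih =>
        intro hsub
        obtain ⟨Ps, h1, h2, h3⟩ := ih fun y hy => hsub (Finset.mem_insert_of_mem hy)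
        obtain ⟨hxV, hxr⟩ := hQm x (hsub (Finset.mem_insert_self _ _))
        obtain ⟨Ps', k1, k2, k3⟩ := exists_pieces (hVm x hxV).1 (hVm x hxV).2 (hrr1 x hxV).1
          (by rw [hrr]; exact Nat.succ_pos _) hxr
        refine ⟨Ps' ++ Ps, ?_, ?_, ?_⟩
        · intro P hP
          rcases List.mem_append.1 hP with h | h
          · exact k1 P h
          · exact h1 P h
        · rw [List.length_append, k2, h2, Finset.sum_insert hxW]
        · rw [List.sum_append, k3, h3, Finset.sum_insert hxW]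
    obtain ⟨Ps, hPs1, hPs2, hPs3⟩ := hpieces Q (Finset.Subset.refl _)
    -- the capacity
    have hcap : ∑ u ∈ R, p u ≤ ∑ x ∈ Q, n x / rr x := by
      have h1 : ∑ x ∈ V, n x * x ^ 2 = ∑ x ∈ R, n x * x ^ 2 + ∑ x ∈ Q, n x * x ^ 2 := by
        rw [hR, hQ]
        exact (Finset.sum_filter_add_sum_filter_not _ _ _).symm
      have h2 : ∑ x ∈ R, n x * x ^ 2 ≤ R.card * (25 * M ^ 2) := by
        calc _ ≤ ∑ x ∈ R, 25 * M ^ 2 := Finset.sum_le_sum fun x hx => by
              have := hRm x hx
              omega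
          _ = _ := by rw [Finset.sum_const, smul_eq_mul]
      have h3 : ∑ x ∈ Q, n x * x ^ 2 ≤ (∑ x ∈ Q, n x / rr x + Q.card) * (25 * M ^ 2) := by
        calc _ ≤ ∑ x ∈ Q, (n x / rr x + 1) * (25 * M ^ 2) := Finset.sum_le_sum fun x hx => by
              obtain ⟨hxV, -⟩ := hQm x hx
              have k1 : n x < rr x * (n x / rr x + 1) :=
                Nat.lt_mul_div_succ _ (by rw [hrr]; exact Nat.succ_pos _)
              calc n x * x ^ 2 ≤ rr x * (n x / rr x + 1) * x ^ 2 :=
                    Nat.mul_le_mul_right _ k1.le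
                _ = (n x / rr x + 1) * (rr x * x ^ 2) := by ring
                _ ≤ _ := Nat.mul_le_mul_left _ (hrr1 x hxV).2
          _ = _ := by
              rw [← Finset.sum_mul, Finset.sum_add_distrib, Finset.sum_const, smul_eq_mul, mul_one]
      have h4 : (((L.map fun x => x ^ 2).sum : ℕ) : ℝ) ≤
          ((R.card : ℝ) + (((∑ x ∈ Q, n x / rr x : ℕ) : ℝ) + Q.card)) * (25 * (M : ℝ) ^ 2) := by
        rw [← htot, h1]
        have : ∑ x ∈ R, n x * x ^ 2 + ∑ x ∈ Q, n x * x ^ 2 ≤
            (R.card + (∑ x ∈ Q, n x / rr x + Q.card)) * (25 * M ^ 2) := by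
          rw [add_mul]
          exact Nat.add_le_add h2 h3
        exact_mod_cast this
      have h5 : 2 * (M : ℝ) * (2 + Real.log M) ≤
          (R.card : ℝ) + (((∑ x ∈ Q, n x / rr x : ℕ) : ℝ) + Q.card) := by
        have h6 := h50.trans h4
        have h7 : 0 < 25 * (M : ℝ) ^ 2 := by positivity
        have h8 : 2 * (M : ℝ) * (2 + Real.log M) * (25 * (M : ℝ) ^ 2) ≤
            ((R.card : ℝ) + (((∑ x ∈ Q, n x / rr x : ℕ) : ℝ) + Q.card)) * (25 * (M : ℝ) ^ 2) := by
          refine le_trans (le_of_eq ?_) h6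
          ring
        exact le_of_mul_le_mul_right h8 h7
      have h9 : ((∑ u ∈ R, p u : ℕ) : ℝ) ≤ R.card + 2 * M * (1 + Real.log M) := by
        push_cast
        calc ∑ u ∈ R, (p u : ℝ) ≤ ∑ u ∈ R, (1 + 2 * (M : ℝ) * (1 / (u : ℝ))) := by
              refine Finset.sum_le_sum fun u hu => ?_
              have hu1 : (1 : ℝ) ≤ u := by
                have := (hVm u (hRV hu)).1
                exact_mod_cast this
              have hu0 : (0 : ℝ) < u := by linarith
              have k1 : ((n u * u / (12 * M) : ℕ) : ℝ) ≤ ((n u * u : ℕ) : ℝ) / ((12 * M : ℕ) : ℝ) :=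
                Nat.cast_div_le
              have k2 : ((n u * u ^ 2 : ℕ) : ℝ) ≤ ((24 * M ^ 2 : ℕ) : ℝ) := by
                exact_mod_cast hRm u hu
              have k3 : ((n u * u : ℕ) : ℝ) / ((12 * M : ℕ) : ℝ) ≤ 2 * (M : ℝ) * (1 / (u : ℝ)) := by
                push_cast at k2 ⊢
                rw [mul_one_div, div_le_div_iff₀ (by positivity) hu0]
                calc (n u : ℝ) * u * u = n u * (u : ℝ) ^ 2 := by ring
                  _ ≤ 24 * (M : ℝ) ^ 2 := k2
                  _ = 2 * (M : ℝ) * (12 * M) := by ring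
              rw [hp]
              push_cast at k1 k3 ⊢
              linarith
          _ = R.card + 2 * M * ∑ u ∈ R, (1 / (u : ℝ)) := by
              rw [Finset.sum_add_distrib, Finset.sum_const, nsmul_eq_mul, mul_one, Finset.mul_sum]
          _ ≤ R.card + 2 * M * (1 + Real.log M) := by
              have k1 : ∑ u ∈ R, (1 / (u : ℝ)) ≤ ∑ u ∈ Finset.Icc 1 M, (1 / (u : ℝ)) :=
                Finset.sum_le_sum_of_subset_of_nonneg (hRV.trans hVI) fun x _ _ => by positivity
              have k2 := k1.trans (sum_inv_le M)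
              have k3 : 2 * (M : ℝ) * ∑ u ∈ R, (1 / (u : ℝ)) ≤ 2 * M * (1 + Real.log M) :=
                mul_le_mul_of_nonneg_left k2 (by positivity)
              linarith
      have h10 : (R.card : ℝ) + Q.card ≤ M := by
        have : R.card + Q.card ≤ M := by omega
        exact_mod_cast this
      have h11 : (0 : ℝ) ≤ Q.card := Nat.cast_nonneg _
      have h12 : ((∑ u ∈ R, p u : ℕ) : ℝ) ≤ ((∑ x ∈ Q, n x / rr x : ℕ) : ℝ) := by
        have e1 : 2 * (M : ℝ) * (2 + Real.log M) = 2 * M + 2 * M * (1 + Real.log M) := by ring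
        rw [e1] at h5
        linarith
      exact_mod_cast h12
    have hfill := Fill.hostList (M := M) hM (n := n) (p := p) R.toList (fun u hu => by
        rw [Finset.mem_toList] at hu
        refine ⟨(hVm u (hRV hu)).1, (hVm u (hRV hu)).2, hn1 u (hRV hu), ?_, ?_⟩
        · rw [hp]; exact Nat.succ_pos _
        · rw [hp]
          exact (Nat.lt_mul_div_succ _ (by omega)).le) Ps hPs1 (by
        rw [Finset.sum_map_toList, hPs2]
        exact hcap)
    rw [Finset.sum_map_toList, hPs3] at hfill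
    have hmul : ((List.map (fun x : ℕ => (x : ℝ)) L : List ℝ) : Multiset ℝ) =
        ∑ u ∈ R, Multiset.replicate (n u) (u : ℝ) + ∑ x ∈ Q, Multiset.replicate (n x) (x : ℝ) := by
      have h1 := Multiset.toFinset_sum_count_nsmul_eq (L : Multiset ℕ)
      simp only [Multiset.coe_count, Multiset.nsmul_singleton] at h1
      have h2 : (L : Multiset ℕ).toFinset = V := by rw [hV]; rfl
      rw [h2] at h1
      have e2 : ∀ W : Finset ℕ, Multiset.map (fun x : ℕ => (x : ℝ))
          (∑ w ∈ W, Multiset.replicate (L.count w) w) =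
          ∑ w ∈ W, Multiset.replicate (n w) (w : ℝ) := by
        intro W
        induction W using Finset.induction_on with
        | empty => simp
        | insert w W hw ih =>
          rw [Finset.sum_insert hw, Finset.sum_insert hw, Multiset.map_add, ih,
            Multiset.map_replicate, hn]
      rw [← Multiset.map_coe, ← h1, e2, hR, hQ]
      exact (Finset.sum_filter_add_sum_filter_not _ _ _).symm
    rw [← hmul] at hfill
    have hM' : (0 : ℝ) < M := by linarith
    refine Fill.fits hM' (by simpa using hLne) hsq' ?_ hfill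
    have h5 : (12 * (M : ℝ)) ^ 2 ≤ c ^ 2 := by
      rw [← hsq]
      refine le_trans ?_ h50
      have h2 : (2 : ℝ) ≤ M := by exact_mod_cast hM2
      have h3 : (M : ℝ) ^ 3 = M * (M : ℝ) ^ 2 := by ring
      have h4 : 2 * (M : ℝ) ^ 2 ≤ (M : ℝ) ^ 3 := by
        rw [h3]
        exact mul_le_mul_of_nonneg_right h2 (by positivity)
      have h6 : 0 ≤ 50 * (M : ℝ) ^ 3 * Real.log M := by positivity
      nlinarith
    exact (pow_le_pow_iff_left₀ (by positivity) hc.le (by norm_num)).1 h5

end Pool.Agent.TH366.RC
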