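import Pool.Agent.TH366.RC.Fits
import Pool.Agent.TH183.SC.Nf

/-! The classes composed of squares are nef. -/

set_option autoImplicit false

namespace Pool.Agent.TH366.RC

open Finset Pool.Agent.TH176.Nag Pool.Agent.H350R3 Pool.Agent.TH183.SC

theorem sum_get (L : List ℝ) (f : ℝ → ℝ) : ∑ i, f (L.get i) = (L.map f).sum := by
  have h : (List.ofFn fun i => f (L.get i)) = (List.ofFn L.get).map f := by
    rw [List.map_ofFn]; rfl
  rw [← List.sum_ofFn, h, List.ofFn_get]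

theorem Fits.nf {c : ℝ} {L : List ℝ} (hF : Fits c c L) : NB.Nf ℂ L.get c := by
  obtain ⟨hc, -, hp, hsq, hT⟩ := hF.sem
  refine nf_of_ray hc ?_ fun y hy => ?_
  · rw [sum_get L fun t => t ^ 2, hsq, sq]
  · have hy' : (1 : ℝ) ≤ y := by exact_mod_cast hy
    have hy0 : (0 : ℝ) < y := by linarith
    obtain ⟨w, hw⟩ : ∃ w : Fin L.length → ℕ, ∀ i, w i = ⌊y * L.get i⌋₊ + 1 := ⟨_, fun _ => rfl⟩
    have hpos : ∀ i, 0 < L.get i := fun i => hp _ (List.get_mem L i)
    have h1 := hT w y hy0 (fun i => by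
      rw [hw i]
      push_cast
      exact Nat.lt_floor_add_one _) 0
    obtain ⟨d, hd⟩ : ∃ d : ℕ, d = ⌊c * y⌋₊ := ⟨_, rfl⟩
    have h2 : Emp w {m : ℤ × ℤ | 0 ≤ m.1 ∧ 0 ≤ m.2 ∧ m.1 + m.2 ≤ (d : ℤ)} := by
      refine h1.mono ?_
      rintro ⟨a, b⟩ ⟨h3, h4, h5⟩
      simp only at h3 h4 h5
      have h3' : (0 : ℝ) ≤ a := by exact_mod_cast h3
      have h5' : ((a + b : ℤ) : ℝ) ≤ ((d : ℤ) : ℝ) := by exact_mod_cast h5
      push_cast at h5'
      have h6 : (d : ℝ) ≤ c * y := by rw [hd]; exact Nat.floor_le (by positivity)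
      refine ⟨h4, ?_, ?_⟩
      · simp only; linarith
      · simp only
        rw [zero_add, zero_add, mul_assoc, sqrt_mul_sqrt_div hc hc, div_self hc.ne']
        linarith
    obtain ⟨x, hx⟩ := Pool.Agent.TH545.Nag.nbEmp_of_Emp h2
    refine ⟨w, d, x, fun i => ?_, ?_, hx⟩
    · rw [hw i]
      push_cast
      have := Nat.floor_le (a := y * L.get i) (mul_nonneg hy0.le (hpos i).le)
      linarith
    · rw [hd]
      exact (Nat.lt_floor_add_one _).le

end Pool.Agent.TH366.RC
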