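import Pool.Agent.TH366.RC.Smallest

/-! Multiplicities whose rare values are absorbed by frequent ones. -/

set_option autoImplicit false

namespace Pool.Agent.TH366.RC

open Finset

/-- the squares of the multiset `S` compose a rectangle of height `h`, or there are none -/
def Fill (h : ℝ) (S : Multiset ℝ) : Prop :=
  S = 0 ∨ FitsM ((S.map fun x => x ^ 2).sum / h) h S

theorem Fill.add {h : ℝ} {S S' : Multiset ℝ} (h1 : Fill h S) (h2 : Fill h S') :
    Fill h (S + S') := by
  rcases h1 with rfl | h1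
  · simpa using h2
  rcases h2 with rfl | h2
  · rw [add_zero]
    exact Or.inr h1
  · right
    rw [Multiset.map_add, Multiset.sum_add, add_div]
    exact h1.join h2

theorem Fill.sum {h : ℝ} {ι : Type*} (s : Finset ι) (f : ι → Multiset ℝ)
    (hf : ∀ i ∈ s, Fill h (f i)) : Fill h (∑ i ∈ s, f i) :=
  Finset.sum_induction f (Fill h) (fun _ _ => Fill.add) (Or.inl rfl) hf

/-- from the rectangle of height `4 M` to the square -/
theorem Fill.fits {c M : ℝ} {L : List ℝ} (hM : 0 < M) (hL : L ≠ [])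
    (hsq : (L.map fun x => x ^ 2).sum = c ^ 2) (hc : 12 * M ≤ c) (h : Fill (4 * M) L) :
    Fits c c L := by
  rcases h with h | h
  · exact absurd (Multiset.coe_eq_zero L |>.1 h) hL
  · obtain ⟨L', hL', hF⟩ := h
    rw [Multiset.map_coe, Multiset.sum_coe, hsq] at hF
    refine Fits.perm _ _ _ _ (Multiset.coe_eq_coe.1 hL') ?_
    exact Fits.squeezeSquare c _ _ _ (by linarith) (by field_simp) (by linarith) hF

/-- a frequent value -/
theorem Fill.block {w M : ℝ} {n : ℕ} (hw : 0 < w) (hwM : w ≤ M) (hn : 24 * M ^ 2 ≤ n * w ^ 2) :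
    Fill (4 * M) (Multiset.replicate n w) := by
  have hM : 0 < M := by linarith
  right
  refine ⟨List.replicate n w, Multiset.coe_replicate _ _, ?_⟩
  rw [Multiset.map_replicate, Multiset.sum_replicate, nsmul_eq_mul]
  refine Fits.block (by positivity) hw ?_ ?_ ?_
  · field_simp
  · linarith
  · nlinarith

/-- `k` points of multiplicity `u ≤ M` are absorbed by `N` points of multiplicity `w ≤ M` -/
theorem Fill.host {u w M : ℝ} {k N : ℕ} (hw : 0 < w) (hwM : w ≤ M) (hu : 0 < u) (huM : u ≤ M)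
    (hk : 1 ≤ k) (hN : 24 * M ^ 2 ≤ N * w ^ 2) (hku : 2 * M * (k * u) ≤ N * w ^ 2) :
    Fill (4 * M) (Multiset.replicate k u + Multiset.replicate N w) := by
  have hM : 0 < M := by linarith
  have h1 : Fits ((N : ℝ) * w ^ 2 / (2 * M)) (4 * M / 2) (List.replicate N w) := by
    have e : 4 * M / 2 = 2 * M := by ring
    rw [e]
    exact Fits.block (by positivity) hw (by field_simp) (by linarith) (by nlinarith)
  have hA0 : 0 ≤ (k : ℝ) * u ^ 2 := by positivity
  have hA : 0 < (k : ℝ) * u ^ 2 + N * w ^ 2 := by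
    have : 0 < M ^ 2 := by positivity
    linarith
  right
  refine ⟨List.replicate k u ++ List.replicate N w, ?_, ?_⟩
  · rw [← Multiset.coe_add, Multiset.coe_replicate, Multiset.coe_replicate]
  · rw [Multiset.map_add, Multiset.sum_add, Multiset.map_replicate, Multiset.map_replicate,
      Multiset.sum_replicate, Multiset.sum_replicate, nsmul_eq_mul, nsmul_eq_mul]
    refine Fits.corner _ _ _ _ _ _ (by positivity) (by positivity) hu hk (by linarith) ?_ ?_ ?_ h1
    · rw [← mul_div_assoc, le_div_iff₀ (by positivity)]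
      nlinarith
    · rw [← mul_div_assoc, le_div_iff₀ (by positivity)]
      nlinarith
    · field_simp
      ring

/-- every value is frequent or absorbed by `N` copies of the value `v` -/
theorem Fits.general {c v M : ℝ} {L : List ℝ} {N : ℕ} (hvL : v ∈ L)
    (hL : ∀ x ∈ L, 0 < x ∧ x ≤ M) (hN : 24 * M ^ 2 ≤ N * v ^ 2)
    (hN' : ∀ x ∈ L, (L.count x : ℝ) * x ^ 2 < 24 * M ^ 2 → 2 * M * (L.count x * x) ≤ N * v ^ 2)
    (hr : ((L.toFinset.filter fun x => (L.count x : ℝ) * x ^ 2 < 24 * M ^ 2).card + 1) * N ≤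
      L.count v)
    (hc : 12 * M ≤ c) (hsq : (L.map fun x => x ^ 2).sum = c ^ 2) : Fits c c L := by
  classical
  obtain ⟨hv, hvM⟩ := hL v hvL
  have hM : 0 < M := by linarith
  obtain ⟨W, hW⟩ : ∃ W : Finset ℝ, W = L.toFinset.erase v := ⟨_, rfl⟩
  obtain ⟨ρ, hρ⟩ : ∃ ρ : ℝ → ℕ, ∀ w, ρ w =
      if (L.count w : ℝ) * w ^ 2 < 24 * M ^ 2 then N else 0 := ⟨_, fun _ => rfl⟩
  have hsum : ∑ w ∈ W, ρ w ≤
      (L.toFinset.filter fun x => (L.count x : ℝ) * x ^ 2 < 24 * M ^ 2).card * N := by
    rw [Finset.card_filter, Finset.sum_mul]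
    calc ∑ w ∈ W, ρ w ≤ ∑ w ∈ L.toFinset, ρ w :=
          Finset.sum_le_sum_of_subset (by rw [hW]; exact Finset.erase_subset _ _)
      _ = _ := Finset.sum_congr rfl fun w _ => by
          rw [hρ]
          split_ifs <;> simp
  have hr' : (L.toFinset.filter fun x => (L.count x : ℝ) * x ^ 2 < 24 * M ^ 2).card * N + N ≤
      L.count v := by
    have := hr
    rw [add_mul, one_mul] at this
    exact this
  obtain ⟨l, hl⟩ : ∃ l : ℕ, l + ∑ w ∈ W, ρ w = L.count v :=
    ⟨L.count v - ∑ w ∈ W, ρ w, by omega⟩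
  have hlN : N ≤ l := by omega
  have hlv : 24 * M ^ 2 ≤ l * v ^ 2 := by
    have h1 : (N : ℝ) ≤ l := by exact_mod_cast hlN
    have h2 : (N : ℝ) * v ^ 2 ≤ l * v ^ 2 := mul_le_mul_of_nonneg_right h1 (by positivity)
    linarith
  have hmul : (L : Multiset ℝ) = Multiset.replicate l v +
      ∑ w ∈ W, (Multiset.replicate (L.count w) w + Multiset.replicate (ρ w) v) := by
    have h1 := Multiset.toFinset_sum_count_nsmul_eq (L : Multiset ℝ)
    have h2 : (L : Multiset ℝ).toFinset = insert v W := by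
      rw [hW, Finset.insert_erase (List.mem_toFinset.2 hvL)]
      rfl
    rw [h2, Finset.sum_insert (by rw [hW]; exact Finset.notMem_erase _ _)] at h1
    simp only [Multiset.coe_count, Multiset.nsmul_singleton] at h1
    rw [Finset.sum_add_distrib]
    have e3 : Multiset.replicate (∑ w ∈ W, ρ w) v = ∑ w ∈ W, Multiset.replicate (ρ w) v := by
      simp only [← Multiset.nsmul_singleton]
      rw [Finset.sum_smul]
    rw [← e3, ← h1, ← hl, Multiset.replicate_add]
    abel
  refine Fill.fits hM (List.ne_nil_of_mem hvL) hsq hc ?_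
  rw [hmul]
  refine (Fill.block hv hvM hlv).add (Fill.sum _ _ fun w hw => ?_)
  rw [hW, Finset.mem_erase, List.mem_toFinset] at hw
  obtain ⟨hw0, hwM⟩ := hL w hw.2
  rw [hρ]
  split_ifs with h4
  · exact Fill.host hv hvM hw0 hwM (List.count_pos_iff.2 hw.2) hN (hN' w hw.2 h4)
  · simpa using Fill.block hw0 hwM (not_lt.1 h4)

end Pool.Agent.TH366.RC
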