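import Pool.Agent.TH366.RC.Fam

/-! Families of classes composed of squares: chains and groups of chains. -/

set_option autoImplicit false

namespace Pool.Agent.TH366.RC

/-- `b` is equal to `a` or at most half of `a` -/
def Half (a b : ℝ) : Prop := b = a ∨ 2 * b ≤ a

/-- a chain of squares whose sides are equal or drop by a factor at least two, the smallest one
repeated sufficiently often, in a rectangle of height `s` -/
theorem Fits.chain {v : ℝ} {r : ℕ} (hv : 0 < v) : ∀ (U : List ℝ) (s : ℝ), 0 < s →
    List.IsChain Half (s :: (U ++ [v])) → 3 * s ^ 2 ≤ 2 * (r * v ^ 2) →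
    Fits (((U.map fun t => t ^ 2).sum + r * v ^ 2) / s) s (U ++ List.replicate r v) := by
  intro U
  induction U with
  | nil =>
    intro s hs hc hr
    simp only [List.nil_append, List.isChain_cons_cons, List.isChain_singleton, and_true] at hc
    simp only [List.map_nil, List.sum_nil, zero_add, List.nil_append]
    have hr1 : 1 ≤ r := by
      by_contra h0
      have : r = 0 := by omega
      subst this
      have : (0 : ℝ) < 3 * s ^ 2 := by positivity
      simp at hr
      nlinarith
    rcases hc with h | h
    · subst h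
      have := Fits.row hv r hr1
      have e : (r : ℝ) * v ^ 2 / v = r * v := by field_simp
      rw [e]
      exact this
    · exact Fits.block hs hv (by field_simp) h hr
  | cons u U ih =>
    intro s hs hc hr
    simp only [List.cons_append, List.isChain_cons_cons] at hc
    obtain ⟨hsu, hc⟩ := hc
    -- positivity of `u`
    have hu : 0 < u := by
      have : ∀ (U : List ℝ) (u : ℝ), List.IsChain Half (u :: (U ++ [v])) → 0 < u := by
        intro U
        induction U with
        | nil =>
          intro u h
          simp only [List.nil_append, List.isChain_cons_cons, List.isChain_singleton,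
            and_true] at h
          rcases h with h | h <;> linarith
        | cons x U ih =>
          intro u h
          simp only [List.cons_append, List.isChain_cons_cons] at h
          have h1 := ih x h.2
          rcases h.1 with h | h <;> linarith
      exact this U u hc
    have hus : u ≤ s := by rcases hsu with h | h <;> linarith
    have hr' : 3 * u ^ 2 ≤ 2 * (r * v ^ 2) := by nlinarith
    have h1 := ih u hu hc hr'
    have h2 := Fits.join _ _ _ _ _ (Fits.square u hu) h1
    have e : u + ((U.map fun t => t ^ 2).sum + r * v ^ 2) / u =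
        (((u :: U).map fun t => t ^ 2).sum + r * v ^ 2) / u := by
      rw [List.map_cons, List.sum_cons]
      field_simp
      ring
    rw [e] at h2
    obtain ⟨A, hA⟩ : ∃ A : ℝ, A = ((u :: U).map fun t => t ^ 2).sum + r * v ^ 2 := ⟨_, rfl⟩
    have hAr : r * v ^ 2 ≤ A := by
      rw [hA]
      have : 0 ≤ ((u :: U).map fun t => t ^ 2).sum := by
        apply List.sum_nonneg
        intro x hx
        obtain ⟨y, -, rfl⟩ := List.mem_map.1 hx
        positivity
      linarith
    rw [← hA] at h2 ⊢
    have hA0 : 0 < A := by nlinarith [pow_pos hs 2]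
    rcases hsu with h | h
    · subst h
      exact h2
    · refine Fits.squeeze _ _ (A / u) u _ (by positivity) hs (by field_simp) h ?_ h2
      rw [← mul_div_assoc, le_div_iff₀ hs]
      nlinarith

theorem chain_le_of_mem {v : ℝ} (hv : 0 < v) : ∀ (U : List ℝ) (s : ℝ),
    List.IsChain Half (s :: (U ++ [v])) → 0 < s ∧ v ≤ s := by
  intro U
  induction U with
  | nil =>
    intro u h
    simp only [List.nil_append, List.isChain_cons_cons, List.isChain_singleton, and_true] at h
    rcases h with h | h <;> constructor <;> linarith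
  | cons x U ih =>
    intro u h
    simp only [List.cons_append, List.isChain_cons_cons] at h
    have h1 := ih x h.2
    rcases h.1 with h | h <;> constructor <;> linarith [h1.1, h1.2]

/-- one chain: `c ≥ 3 u` for the largest side `u` -/
theorem Fits.oneChain {c u v : ℝ} {r : ℕ} {U : List ℝ} (hv : 0 < v)
    (hc : List.IsChain Half (u :: (U ++ [v])))
    (hsq : ((u :: U).map fun t => t ^ 2).sum + r * v ^ 2 = c ^ 2) (h3 : 3 * u ≤ c)
    (hr : 3 * u ^ 2 ≤ 2 * (r * v ^ 2)) : Fits c c (u :: U ++ List.replicate r v) := by
  obtain ⟨hu, -⟩ := chain_le_of_mem hv U u hc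
  have h1 := Fits.chain (r := r) hv (u :: U) u hu (by
    simp only [List.cons_append, List.isChain_cons_cons]
    exact ⟨Or.inl rfl, hc⟩) hr
  rw [hsq] at h1
  exact Fits.squeezeSquare c _ _ _ (by linarith) (by field_simp) h3 h1

/-- groups of chains in a rectangle of height `s` -/
theorem Fits.groups_aux {s : ℝ} (hs : 0 < s) : ∀ G : List (List ℝ × ℕ × ℝ), G ≠ [] →
    (∀ z ∈ G, 0 < z.2.2 ∧ List.IsChain Half (s :: (z.1 ++ [z.2.2])) ∧
      3 * s ^ 2 ≤ 2 * ((z.2.1 : ℝ) * z.2.2 ^ 2)) →
    Fits ((G.map fun z => (z.1.map fun t => t ^ 2).sum + (z.2.1 : ℝ) * z.2.2 ^ 2).sum / s) s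
      (G.flatMap fun z => z.1 ++ List.replicate z.2.1 z.2.2) := by
  intro G
  induction G with
  | nil => intro h; exact absurd rfl h
  | cons z G ih =>
    intro _ hz
    obtain ⟨h0, h1, h2⟩ := hz z (by simp)
    have hblock := Fits.chain (r := z.2.1) h0 z.1 s hs h1 h2
    rcases List.eq_nil_or_concat G with hB | ⟨G', y, hB⟩
    · subst hB
      simpa using hblock
    · have h3 := ih (by rw [hB]; simp) fun y hy => hz y (by simp [hy])
      have h4 := Fits.join _ _ _ _ _ hblock h3
      rw [← add_div] at h4
      simpa using h4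

/-- groups of chains; `M` is a bound of all sides -/
theorem Fits.groups {c M : ℝ} (G : List (List ℝ × ℕ × ℝ)) (hG : G ≠ []) (hM : 0 < M)
    (hc : 6 * M ≤ c)
    (hsq : (G.map fun z => (z.1.map fun t => t ^ 2).sum + (z.2.1 : ℝ) * z.2.2 ^ 2).sum = c ^ 2)
    (h : ∀ z ∈ G, 0 < z.2.2 ∧ List.IsChain Half (z.1 ++ [z.2.2]) ∧
      (∀ t ∈ z.1 ++ [z.2.2], t ≤ M) ∧ 6 * M ^ 2 ≤ (z.2.1 : ℝ) * z.2.2 ^ 2) :
    Fits c c (G.flatMap fun z => z.1 ++ List.replicate z.2.1 z.2.2) := by
  have h1 := Fits.groups_aux (s := 2 * M) (by positivity) G hG fun z hz => by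
    obtain ⟨h0, h1, h2, h3⟩ := h z hz
    refine ⟨h0, ?_, by nlinarith⟩
    rw [List.isChain_cons]
    refine ⟨fun y hy => ?_, h1⟩
    right
    have := h2 y (List.mem_of_mem_head? hy)
    linarith
  rw [hsq] at h1
  exact Fits.squeezeSquare c _ _ _ (by linarith) (by field_simp) (by linarith) h1

end Pool.Agent.TH366.RC
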