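import Pool.Agent.TH366.RC.Fits

/-! Two explicit families of classes composed of squares. -/

set_option autoImplicit false

namespace Pool.Agent.TH366.RC

/-- a row of equal squares -/
theorem Fits.row {h : ℝ} (hh : 0 < h) : ∀ m : ℕ, 1 ≤ m → Fits (m * h) h (List.replicate m h) := by
  intro m hm
  induction m, hm using Nat.le_induction with
  | base => simpa using Fits.square h hh
  | succ m _ ih =>
    have h1 := Fits.join _ _ _ _ _ ih (Fits.square h hh)
    have e1 : (m : ℝ) * h + h = ((m + 1 : ℕ) : ℝ) * h := by push_cast; ring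
    have e2 : List.replicate m h ++ [h] = List.replicate (m + 1) h := by
      rw [List.replicate_succ']
    rw [e1, e2] at h1
    exact h1

/-- a rectangle squeezed into a row of equal squares -/
theorem Fits.block {b h w : ℝ} {m : ℕ} (hh : 0 < h) (hw : 0 < w) (ha : m * w ^ 2 = b * h)
    (h2 : 2 * w ≤ h) (h3 : 3 * h ^ 2 ≤ 2 * (m * w ^ 2)) : Fits b h (List.replicate m w) := by
  have hb : 0 < b := by
    by_contra h0
    push Not at h0
    have : b * h ≤ 0 := mul_nonpos_of_nonpos_of_nonneg h0 hh.le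
    nlinarith
  have hm : 1 ≤ m := by
    by_contra h0
    have : m = 0 := by omega
    subst this
    have : (0 : ℝ) < b * h := by positivity
    simp at ha
    rcases ha with h | h <;> linarith
  refine Fits.squeeze b h (m * w) w _ hb hh (by rw [← ha]; ring) h2 ?_ (Fits.row hw m hm)
  rw [ha] at h3
  have h4 : h * (3 * h) ≤ h * (2 * b) := by nlinarith
  exact le_of_mul_le_mul_left h4 hh

/-- blocks of equal squares in a rectangle of height `s` -/
theorem Fits.blocks_aux {s : ℝ} (hs : 0 < s) : ∀ B : List (ℕ × ℝ), B ≠ [] →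
    (∀ z ∈ B, 0 < z.2 ∧ 2 * z.2 ≤ s ∧ 3 * s ^ 2 ≤ 2 * ((z.1 : ℝ) * z.2 ^ 2)) →
    Fits ((B.map fun z => (z.1 : ℝ) * z.2 ^ 2).sum / s) s
      (B.flatMap fun z => List.replicate z.1 z.2) := by
  intro B
  induction B with
  | nil => intro h; exact absurd rfl h
  | cons z B ih =>
    intro _ hz
    obtain ⟨h0, h1, h2⟩ := hz z (by simp)
    have hblock : Fits ((z.1 : ℝ) * z.2 ^ 2 / s) s (List.replicate z.1 z.2) :=
      Fits.block hs h0 (by field_simp) h1 h2
    rcases List.eq_nil_or_concat B with hB | ⟨B', y, hB⟩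
    · subst hB
      simpa using hblock
    · have h3 := ih (by rw [hB]; simp) fun y hy => hz y (by simp [hy])
      have h4 := Fits.join _ _ _ _ _ hblock h3
      rw [← add_div] at h4
      simpa using h4

/-- block classes -/
theorem Fits.blocks {c : ℝ} (B : List (ℕ × ℝ)) (hB : B ≠ []) (hc : 0 < c)
    (hpos : ∀ z ∈ B, 0 < z.2) (hsq : (B.map fun z => (z.1 : ℝ) * z.2 ^ 2).sum = c ^ 2)
    (h6 : ∀ z ∈ B, 6 * z.2 ≤ c) (h6' : ∀ z ∈ B, ∀ y ∈ B, 6 * y.2 ^ 2 ≤ (z.1 : ℝ) * z.2 ^ 2) :
    Fits c c (B.flatMap fun z => List.replicate z.1 z.2) := by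
  obtain ⟨y, hy, hmax⟩ : ∃ y ∈ B, ∀ z ∈ B, z.2 ≤ y.2 := by
    obtain ⟨y, hy, hmax⟩ := Finset.exists_max_image B.toFinset (fun z => z.2)
      (by simpa [List.toFinset_nonempty_iff] using hB)
    exact ⟨y, by simpa using hy, fun z hz => hmax z (by simpa using hz)⟩
  have hy0 := hpos y hy
  have hs : 0 < 2 * y.2 := by positivity
  have h1 := Fits.blocks_aux hs B hB fun z hz => by
    refine ⟨hpos z hz, by linarith [hmax z hz], ?_⟩
    have := h6' z hz y hy
    nlinarith
  rw [hsq] at h1
  refine Fits.squeezeSquare c _ _ _ hc ?_ ?_ h1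
  · field_simp
  · linarith [h6 y hy]

/-- two-level classes -/
theorem Fits.twoLevel {c u v : ℝ} {k r : ℕ} (hv : 0 < v) (hsq : k * u ^ 2 + r * v ^ 2 = c ^ 2)
    (hvu : 2 * v ≤ u) (huc : 3 * u ≤ c) (hr : 3 * u ^ 2 ≤ 2 * (r * v ^ 2)) :
    Fits c c (List.replicate k u ++ List.replicate r v) := by
  have hu : 0 < u := by linarith
  have hc : 0 < c := by linarith
  have h1 : Fits ((r : ℝ) * v ^ 2 / u) u (List.replicate r v) :=
    Fits.block hu hv (by field_simp) hvu hr
  have h2 : Fits (c ^ 2 / u) u (List.replicate k u ++ List.replicate r v) := by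
    rcases Nat.eq_zero_or_pos k with hk | hk
    · subst hk
      have : (r : ℝ) * v ^ 2 = c ^ 2 := by simpa using hsq
      rw [this] at h1
      simpa using h1
    · have h3 := Fits.join _ _ _ _ _ (Fits.row hu k hk) h1
      have e : (k : ℝ) * u + r * v ^ 2 / u = c ^ 2 / u := by
        rw [← hsq]
        field_simp
      rw [e] at h3
      exact h3
  exact Fits.squeezeSquare c _ _ _ hc (by field_simp) huc h2

end Pool.Agent.TH366.RC
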