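import Pool.Agent.TH366.RC.Cut
import Pool.Agent.TH366.RC.Corner

/-! Rectangles with real sides which are composed of squares by gluing, transposition and
area-preserving transformations. -/

set_option autoImplicit false

namespace Pool.Agent.TH366.RC

open Finset Pool.Agent.TH176.Nag

/-- `Fits b h L`: the rectangle with base `b` and height `h` (positive real numbers) is composed of
squares with sides `L_1, ..., L_k` by
* `join`: two rectangles of the same height are put side by side;
* `swap`: base and height are exchanged;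
* `perm`: the list of the squares is permuted;
* `stretch`: the rectangle `x b × h / x`, `x ≥ 1` an integer with `h ≤ x b`, is replaced by `b × h`;
* `move`: the rectangle with base `k b + y h` and the same area `b h`, where `k ≥ 1` and `y ≥ 0` are
  coprime integers, is replaced by `b × h`;
* `squeeze`: a rectangle with the same area and a height `h' ≤ h / 2`, any real number, is replaced
  by `b × h`, if `3 h ≤ 2 b`;
* `squeezeSquare`: a rectangle with the area `s ^ 2` and a height `h' ≤ s / 3`, any real number, is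
  replaced by the square with side `s`;
* `corner`: `k ≥ 1` squares with ANY side `l ≤ h / 2`, `k l ≤ 2 b`, and a rectangle with the height
  `h / 2` and the remaining area `b h - k l ^ 2` are replaced by `b × h`, if `3 h ≤ 2 b`. -/
inductive Fits : ℝ → ℝ → List ℝ → Prop
  | square (s : ℝ) : 0 < s → Fits s s [s]
  | join (b b' h : ℝ) (L L' : List ℝ) : Fits b h L → Fits b' h L' → Fits (b + b') h (L ++ L')
  | swap (b h : ℝ) (L : List ℝ) : Fits b h L → Fits h b L
  | perm (b h : ℝ) (L L' : List ℝ) : L.Perm L' → Fits b h L → Fits b h L'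
  | stretch (b h : ℝ) (L : List ℝ) (x : ℕ) : 0 < b → 0 < h → 1 ≤ x → h ≤ x * b →
      Fits (x * b) (h / x) L → Fits b h L
  | move (b h : ℝ) (L : List ℝ) (k y : ℕ) : 0 < b → 0 < h → 1 ≤ k → Nat.Coprime k y →
      Fits (k * b + y * h) (b * h / (k * b + y * h)) L → Fits b h L
  | squeeze (b h b' h' : ℝ) (L : List ℝ) : 0 < b → 0 < h → b * h = b' * h' → 2 * h' ≤ h →
      3 * h ≤ 2 * b → Fits b' h' L → Fits b h L
  | squeezeSquare (s b' h' : ℝ) (L : List ℝ) : 0 < s → s * s = b' * h' → 3 * h' ≤ s →
      Fits b' h' L → Fits s s L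
  | corner (b h b' l : ℝ) (k : ℕ) (L : List ℝ) : 0 < b → 0 < h → 0 < l → 1 ≤ k → 2 * l ≤ h →
      3 * h ≤ 2 * b → k * l ≤ 2 * b → k * l ^ 2 + b' * (h / 2) = b * h → Fits b' (h / 2) L →
      Fits b h (List.replicate k l ++ L)

/-- the meaning of `Fits` for the emptiness of linear systems -/
def Sem (b h : ℝ) (L : List ℝ) : Prop :=
  0 < b ∧ 0 < h ∧ (∀ t ∈ L, 0 < t) ∧ (L.map fun t => t ^ 2).sum = b * h ∧
    ∀ (w : Fin L.length → ℕ) (E : ℝ), 0 < E → (∀ i, E * L.get i < (w i : ℝ)) →
      T w (E * √(b * h)) 0 (b / h)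

theorem sqrt_mul_sqrt_div {b h : ℝ} (hb : 0 < b) (hh : 0 < h) : √(b * h) * √(b / h) = b := by
  rw [← Real.sqrt_mul (by positivity)]
  have : b * h * (b / h) = b ^ 2 := by field_simp
  rw [this, Real.sqrt_sq hb.le]

theorem Sem.square {s : ℝ} (hs : 0 < s) : Sem s s [s] := by
  refine ⟨hs, hs, by simpa using hs, by simp [sq], ?_⟩
  intro w E hE hw α
  have h1 := hw 0
  simp only [List.get_eq_getElem, Fin.isValue, Fin.val_eq_zero, List.getElem_cons_zero] at h1
  apply Pool.Agent.TH819.NagA.Emp_final w _ _ _ _ le_rfl (by positivity)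
  · rw [div_self hs.ne']
    simp
  · rw [zero_add, mul_assoc, sqrt_mul_sqrt_div hs hs]
    have h2 : ∑ i, (w i : ℝ) = w 0 := by
      simp
    rw [h2]
    linarith

theorem Sem.swap {b h : ℝ} {L : List ℝ} (hS : Sem b h L) : Sem h b L := by
  obtain ⟨hb, hh, hp, hsq, hT⟩ := hS
  refine ⟨hh, hb, hp, by rw [hsq, mul_comm], fun w E hE hw => ?_⟩
  apply T.inv (by positivity)
  rw [one_div_div, mul_comm h b]
  exact hT w E hE hw

/-- permuted lists are related by a bijection of the indices -/
theorem perm_equiv {α : Type*} {L L' : List α} (h : L.Perm L') :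
    ∃ e : Fin L.length ≃ Fin L'.length, ∀ i, L'.get (e i) = L.get i := by
  induction h with
  | nil => exact ⟨Equiv.refl _, fun _ => rfl⟩
  | cons x _ ih =>
    rename_i l l' _
    obtain ⟨e, he⟩ := ih
    refine ⟨((finSuccEquiv l.length).trans (Equiv.optionCongr e)).trans
      (finSuccEquiv l'.length).symm, fun i => ?_⟩
    refine Fin.cases ?_ (fun j => ?_) i
    · simp
    · have := he j
      simpa using this
  | swap x y l =>
    refine ⟨Equiv.swap 0 1, fun i => ?_⟩
    refine Fin.cases ?_ (fun j => ?_) i
    · simp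
    · refine Fin.cases ?_ (fun j' => ?_) j
      · have : Fin.succ (0 : Fin (l.length + 1)) = 1 := rfl
        rw [this]
        simp
      · have h1 : (j'.succ.succ : Fin (l.length + 2)) ≠ 0 := Fin.succ_ne_zero _
        have h2 : (j'.succ.succ : Fin (l.length + 2)) ≠ 1 := by
          intro h
          have : (1 : Fin (l.length + 2)) = Fin.succ 0 := rfl
          rw [this] at h
          exact Fin.succ_ne_zero _ (Fin.succ_injective _ h)
        have h3 : Equiv.swap (0 : Fin (l.length + 2)) 1 j'.succ.succ = j'.succ.succ :=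
          Equiv.swap_apply_of_ne_of_ne h1 h2
        exact (congrArg (List.get (x :: y :: l)) h3).trans rfl
  | trans _ _ ih ih' =>
    obtain ⟨e, he⟩ := ih
    obtain ⟨e', he'⟩ := ih'
    exact ⟨e.trans e', fun i => by rw [Equiv.trans_apply, he', he]⟩

theorem Sem.perm {b h : ℝ} {L L' : List ℝ} (hp : L.Perm L') (hS : Sem b h L) : Sem b h L' := by
  obtain ⟨hb, hh, hpos, hsq, hT⟩ := hS
  obtain ⟨e, he⟩ := perm_equiv hp
  refine ⟨hb, hh, fun t ht => hpos t (hp.mem_iff.2 ht), ?_, fun w E hE hw α => ?_⟩
  · rw [← hsq]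
    exact ((hp.map _).sum_eq).symm
  · have h1 := hT (fun i => w (e i)) E hE (fun i => by rw [← he i]; exact hw (e i)) α
    have h2 := Emp_reindex e.symm h1
    simpa only [Equiv.apply_symm_apply] using h2

/-- changing the rectangle without changing the area -/
theorem Sem.change {b h b' h' : ℝ} {L : List ℝ} (hb : 0 < b) (hh : 0 < h) (ha : b * h = b' * h')
    (hS : Sem b' h' L)
    (hT : ∀ (w : Fin L.length → ℕ) (E : ℝ), 0 < E → T w E 0 (b' / h') → T w E 0 (b / h)) :
    Sem b h L := by
  obtain ⟨hb', hh', hp, hsq, hT'⟩ := hS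
  refine ⟨hb, hh, hp, by rw [hsq, ha], fun w E hE hw => ?_⟩
  refine hT w _ (by positivity) ?_
  rw [ha]
  exact hT' w E hE hw

theorem Sem.join {b b' h : ℝ} {L L' : List ℝ} (hS : Sem b h L) (hS' : Sem b' h L') :
    Sem (b + b') h (L ++ L') := by
  obtain ⟨hb, hh, hp, hsq, hT⟩ := hS
  obtain ⟨hb', -, hp', hsq', hT'⟩ := hS'
  refine ⟨by positivity, hh, ?_, ?_, fun w E hE hw => ?_⟩
  · intro t ht
    rcases List.mem_append.1 ht with h1 | h1
    · exact hp t h1
    · exact hp' t h1
  · rw [List.map_append, List.sum_append, hsq, hsq']; ring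
  · obtain ⟨e, he⟩ : ∃ e : Fin L.length ⊕ Fin L'.length ≃ Fin (L ++ L').length,
        e = finSumFinEquiv.trans (finCongr (List.length_append).symm) := ⟨_, rfl⟩
    have e1 : ∀ i, (L ++ L').get (e (Sum.inl i)) = L.get i := by
      intro i
      rw [he]
      simp [List.getElem_append_left]
    have e2 : ∀ i, (L ++ L').get (e (Sum.inr i)) = L'.get i := by
      intro i
      rw [he]
      simp [List.getElem_append_right]
    have k1 := hT (fun i => w (e (Sum.inl i))) E hE fun i => by rw [← e1]; exact hw _
    have k2 := hT' (fun i => w (e (Sum.inr i))) E hE fun i => by rw [← e2]; exact hw _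
    have hsum : Sum.elim (fun i => w (e (Sum.inl i))) (fun i => w (e (Sum.inr i))) =
        fun z => w (e z) := by
      funext z
      rcases z with z | z <;> rfl
    have hEh : 0 < E * h := by positivity
    have key : ∀ α, Emp (fun z => w (e z)) (Reg α (α + E * h * (b / h + b' / h)) 0
        (b / h + b' / h)) := by
      intro α
      rw [← hsum]
      refine cutT (by positivity) (by positivity) hEh ?_ ?_ α
      · intro α
        have h1 := k1 α
        rw [zero_add, mul_assoc, sqrt_mul_sqrt_div hb hh] at h1
        have e3 : E * h * (b / h) = E * b := by field_simp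
        rw [e3]
        exact h1
      · have h2 : T (fun i => w (e (Sum.inr i))) (E * √(b' * h)) (-(b / h)) (b / h + b' / h) := by
          apply T.toRT
          · have : -(b / h) + (b / h + b' / h) = b' / h := by ring
            rw [this]; positivity
          · have : -(b / h) + (b / h + b' / h) = b' / h := by ring
            rw [this]; exact k2
        intro α
        have h3 := h2 α
        have e4 : -(b / h) + (b / h + b' / h) = b' / h := by ring
        rw [e4, mul_assoc, sqrt_mul_sqrt_div hb' hh] at h3
        have e3 : E * h * (b' / h) = E * b' := by field_simp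
        rw [e3]
        exact h3
    intro α
    have h1 := Emp_reindex e.symm (key α)
    simp only [Equiv.apply_symm_apply] at h1
    rw [zero_add, mul_assoc, sqrt_mul_sqrt_div (by positivity) hh]
    have e5 : E * h * (b / h + b' / h) = E * (b + b') := by field_simp
    have e6 : b / h + b' / h = (b + b') / h := by ring
    rw [e5, e6] at h1
    exact h1

theorem Sem.corner {b h b' l : ℝ} {k : ℕ} {L : List ℝ} (hb : 0 < b) (hh : 0 < h) (hl : 0 < l)
    (hk : 1 ≤ k) (h2 : 2 * l ≤ h) (h3 : 3 * h ≤ 2 * b) (hkl : k * l ≤ 2 * b)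
    (ha : k * l ^ 2 + b' * (h / 2) = b * h)
    (hS : Sem b' (h / 2) L) : Sem b h (List.replicate k l ++ L) := by
  obtain ⟨hb', hh', hp, hsq, hT⟩ := hS
  have hk0 : (0 : ℝ) < k := by exact_mod_cast hk
  have hk1 : (1 : ℝ) ≤ k := by exact_mod_cast hk
  refine ⟨hb, hh, ?_, ?_, fun w E hE hw => ?_⟩
  · intro t ht
    rcases List.mem_append.1 ht with h1 | h1
    · rw [List.eq_of_mem_replicate h1]; exact hl
    · exact hp t h1
  · rw [List.map_append, List.sum_append, hsq, List.map_replicate, List.sum_replicate,
      nsmul_eq_mul]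
    exact ha
  · have hlen2 : k + L.length = (List.replicate k l ++ L).length := by simp
    obtain ⟨e, he⟩ : ∃ e : Fin k ⊕ Fin L.length ≃ Fin (List.replicate k l ++ L).length,
        e = finSumFinEquiv.trans (finCongr hlen2) := ⟨_, rfl⟩
    have e1 : ∀ i, (List.replicate k l ++ L).get (e (Sum.inl i)) = l := by
      intro i
      rw [he]
      simp
    have e2 : ∀ i, (List.replicate k l ++ L).get (e (Sum.inr i)) = L.get i := by
      intro i
      rw [he]
      simp
    have hws : ∀ i : Fin L.length, E * L.get i < (w (e (Sum.inr i)) : ℝ) := fun i => by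
      rw [← e2]; exact hw _
    have k1 := hT (fun i => w (e (Sum.inr i))) E hE hws
    obtain ⟨μ, hμ⟩ : ∃ μ : ℝ, μ = 2 * (k * l) / h := ⟨_, rfl⟩
    obtain ⟨ρ, hρ⟩ : ∃ ρ : ℝ, ρ = b / h := ⟨_, rfl⟩
    have hμ0 : 0 < μ := by rw [hμ]; positivity
    have hμ1 : μ ≤ k := by
      rw [hμ, div_le_iff₀ hh]
      nlinarith
    have hμρ : μ ≤ 4 * ρ := by
      rw [hμ, hρ, ← mul_div_assoc]
      exact div_le_div_of_nonneg_right (by linarith) hh.le
    have hρ1 : 3 ≤ 2 * ρ := by
      rw [hρ, ← mul_div_assoc, le_div_iff₀ hh]; exact h3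
    have e1' : μ + (4 * ρ - μ) - μ ^ 2 / k = b' / (h / 2) := by
      have : b' = (b * h - k * l ^ 2) / (h / 2) := by
        rw [eq_div_iff hh'.ne']; linarith
      rw [this, hμ, hρ]
      field_simp
      ring
    rw [← hρ]
    refine T.nodeZ (E := E * √(b * h)) (μ := μ) (by positivity) hρ1 ?_
    have key : T (Sum.elim (fun i => w (e (Sum.inl i))) fun i => w (e (Sum.inr i)))
        (E * √(b * h)) μ (4 * ρ - μ) := by
      refine T.cornerK (k := k) (E' := E * √(b' * (h / 2))) hk _ hμ0 hμ1 (by linarith) ?_ ?_ ?_
      · rw [e1']; positivity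
      · have hsum : (k : ℝ) * (E * l) ≤
            ∑ i : Fin k, (w (e (Sum.inl i)) : ℝ) := by
          have h5 : ∑ i : Fin k, (E * l) ≤
              ∑ i : Fin k, (w (e (Sum.inl i)) : ℝ) :=
            Finset.sum_le_sum fun i _ => by
              have := hw (e (Sum.inl i))
              rw [e1] at this
              exact this.le
          rw [Finset.sum_const, Finset.card_univ, Fintype.card_fin, nsmul_eq_mul] at h5
          exact h5
        rw [e1', mul_assoc, mul_assoc, sqrt_mul_sqrt_div hb' hh']
        have e2 : μ + (4 * ρ - μ) = 4 * (b / h) := by rw [hρ]; ring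
        have e3 : √(4 * (b / h)) = 2 * √(b / h) := by
          rw [Real.sqrt_mul (by norm_num)]
          have : √(4 : ℝ) = 2 := by
            rw [show (4 : ℝ) = 2 ^ 2 by norm_num]
            exact Real.sqrt_sq (by norm_num)
          rw [this]
        have e4 : √(b * h) * √(μ + (4 * ρ - μ)) = 2 * b := by
          rw [e2, e3]
          have := sqrt_mul_sqrt_div hb hh
          linarith
        rw [e4]
        have e5 : b' = 2 * b - μ * l := by
          have : b' = (b * h - k * l ^ 2) / (h / 2) := by
            rw [eq_div_iff hh'.ne']; linarith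
          rw [this, hμ]
          field_simp
        rw [e5]
        have e7 : E * l ≤ (∑ i : Fin k, (w (e (Sum.inl i)) : ℝ)) / k := by
          rw [le_div_iff₀ hk0]
          linarith
        have e6 : μ * (E * l) ≤
            μ * ((∑ i : Fin k, (w (e (Sum.inl i)) : ℝ)) / k) :=
          mul_le_mul_of_nonneg_left e7 hμ0.le
        linarith
      · rw [e1']
        exact k1
    have hsum : Sum.elim (fun i => w (e (Sum.inl i))) (fun i => w (e (Sum.inr i))) =
        fun z => w (e z) := by
      funext z
      rcases z with z | z <;> rfl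
    rw [hsum] at key
    intro α
    have h5 := Emp_reindex e.symm (key α)
    simp only [Equiv.apply_symm_apply] at h5
    exact h5

theorem Fits.sem {b h : ℝ} {L : List ℝ} (hF : Fits b h L) : Sem b h L := by
  induction hF with
  | square s hs => exact Sem.square hs
  | join b b' h L L' _ _ ih ih' => exact ih.join ih'
  | swap b h L _ ih => exact ih.swap
  | perm b h L L' hp _ ih => exact ih.perm hp
  | stretch b h L x hb hh hx hxb _ ih =>
    have hx' : (0 : ℝ) < x := by exact_mod_cast hx
    refine ih.change hb hh (by field_simp) fun w E hE hT => ?_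
    refine T.mul x hx ?_ ?_
    · rw [← mul_div_assoc, le_div_iff₀ hh]; linarith
    · have e : x * b / (h / x) = (x : ℝ) ^ 2 * (b / h) := by field_simp
      rw [e] at hT
      exact hT
  | move b h L k y hb hh hk hc _ ih =>
    have hk' : (0 : ℝ) < k := by exact_mod_cast hk
    have hy' : (0 : ℝ) ≤ y := Nat.cast_nonneg y
    have hpos : 0 < k * b + y * h := by positivity
    refine ih.change hb hh (by field_simp) fun w E hE hT => ?_
    refine T.move (by positivity) k y (Nat.isCoprime_iff_coprime.2 hc) hk ?_
    have e : (k * b + y * h) / (b * h / (k * b + y * h)) = ((k : ℝ) * (b / h) + y) ^ 2 / (b / h) := by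
      field_simp
    rw [e] at hT
    exact hT
  | squeeze b h b' h' L hb hh ha h2 h3 _ ih =>
    obtain ⟨hb', hh', -⟩ := id ih
    refine ih.change hb hh ha fun w E hE hT => ?_
    refine T.down hE ?_ ?_ hT
    · rw [← mul_div_assoc, le_div_iff₀ hh]; linarith
    · have e : 4 * (b / h) = 4 * b / h := by ring
      rw [e, div_le_div_iff₀ hh hh']
      have e2 : h' * (4 * b * h') ≤ h' * (b' * h) := by
        have e3 : h' * (b' * h) = b * h * h := by rw [ha]; ring
        rw [e3]
        have h4 : (2 * h') * (2 * h') ≤ h * h := mul_self_le_mul_self (by positivity) h2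
        nlinarith
      exact le_of_mul_le_mul_left e2 hh'
  | squeezeSquare s b' h' L hs ha h3 _ ih =>
    obtain ⟨hb', hh', -⟩ := id ih
    refine ih.change hs hs ha fun w E hE hT => ?_
    rw [div_self hs.ne']
    refine T.plane hE ?_ hT
    rw [le_div_iff₀ hh']
    have e2 : h' * (9 * h') ≤ h' * b' := by
      have e3 : h' * b' = s * s := by rw [ha]; ring
      rw [e3]
      have h4 : (3 * h') * (3 * h') ≤ s * s := mul_self_le_mul_self (by positivity) h3
      nlinarith
    exact le_of_mul_le_mul_left e2 hh'
  | corner b h b' l k L hb hh hl hk h2 h3 hkl ha _ ih =>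
    exact ih.corner hb hh hl hk h2 h3 hkl ha

end Pool.Agent.TH366.RC
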