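import Pool.Agent.TH366.RC.Bounded

/-! Integral multiplicities `1 ≤ l_i ≤ M` with `49 M ^ 4 ≤ ∑ l_i ^ 2`. -/

set_option autoImplicit false

namespace Pool.Agent.TH366.RC

open Finset

/-- rare values are distributed over chunks of the frequent values -/
theorem Fill.distribute {M : ℕ} (hM : 1 ≤ M) {R Q : Finset ℕ} {n rr NN : ℕ → ℕ}
    (hR : ∀ u ∈ R, 1 ≤ u ∧ u ≤ M ∧ 1 ≤ n u ∧ n u * u ^ 2 ≤ 24 * M ^ 2)
    (hQ : ∀ x ∈ Q, 1 ≤ x ∧ x ≤ M ∧ 24 * M ^ 2 ≤ rr x * x ^ 2 ∧ 48 * M ^ 3 ≤ NN x * x ^ 2) :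
    ∀ (R' : Finset ℕ), R' ⊆ R → ∀ n' : ℕ → ℕ, (∀ x ∈ Q, rr x ≤ n' x) →
      R'.card ≤ ∑ x ∈ Q, (n' x - rr x) / NN x →
      Fill (4 * (M : ℝ)) (∑ u ∈ R', Multiset.replicate (n u) (u : ℝ) +
        ∑ x ∈ Q, Multiset.replicate (n' x) (x : ℝ)) := by
  classical
  intro R'
  induction R' using Finset.induction_on with
  | empty =>
    intro _ n' hn' _
    rw [Finset.sum_empty, zero_add]
    refine Fill.sum _ _ fun x hx => ?_
    obtain ⟨h1, h2, h3, -⟩ := hQ x hx
    have h4 : rr x * x ^ 2 ≤ n' x * x ^ 2 := Nat.mul_le_mul_right _ (hn' x hx)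
    refine Fill.block (by exact_mod_cast h1) (by exact_mod_cast h2) ?_
    exact_mod_cast h3.trans h4
  | insert u R' hu ih =>
    intro hsub n' hn' hcard
    rw [Finset.card_insert_of_notMem hu] at hcard
    obtain ⟨x, hx, hx1⟩ : ∃ x ∈ Q, 1 ≤ (n' x - rr x) / NN x := by
      by_contra hcon
      push Not at hcon
      have : ∑ x ∈ Q, (n' x - rr x) / NN x = 0 :=
        Finset.sum_eq_zero fun x hx => Nat.lt_one_iff.1 (hcon x hx)
      omega
    obtain ⟨hx0, hxM, hxr, hxN⟩ := hQ x hx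
    have hNN : 0 < NN x := by
      by_contra h0
      have h1 : NN x = 0 := by omega
      rw [h1, zero_mul] at hxN
      have : 0 < 48 * M ^ 3 := by positivity
      omega
    have hx2 : NN x ≤ n' x - rr x := by
      by_contra hlt
      push Not at hlt
      rw [Nat.div_eq_of_lt hlt] at hx1
      omega
    obtain ⟨n'', hn''⟩ : ∃ n'' : ℕ → ℕ, ∀ y, n'' y = if y = x then n' x - NN x else n' y :=
      ⟨_, fun _ => rfl⟩
    have hnx : n'' x = n' x - NN x := by rw [hn'']; simp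
    have hny : ∀ y ∈ Q.erase x, n'' y = n' y := by
      intro y hy
      rw [hn'', if_neg (Finset.ne_of_mem_erase hy)]
    have hdiv : (n' x - rr x) / NN x = (n'' x - rr x) / NN x + 1 := by
      have h1 : n' x - rr x = (n'' x - rr x) + NN x := by omega
      rw [h1, Nat.add_div_right _ hNN]
    have hsum1 : ∑ y ∈ Q, (n' y - rr y) / NN y = ∑ y ∈ Q, (n'' y - rr y) / NN y + 1 := by
      rw [← Finset.add_sum_erase Q _ hx, ← Finset.add_sum_erase Q (fun y => (n'' y - rr y) / NN y) hx,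
        hdiv, Finset.sum_congr rfl fun y hy => by rw [← hny y hy]]
      ring
    have h1 := ih (fun y hy => hsub (Finset.mem_insert_of_mem hy)) n'' (fun y hy => by
      rw [hn'']
      split_ifs with h
      · subst h; omega
      · exact hn' y hy) (by omega)
    obtain ⟨hu0, huM, hun, hu2⟩ := hR u (hsub (Finset.mem_insert_self _ _))
    have hx0' : (0 : ℝ) < x := by exact_mod_cast hx0
    have hu0' : (0 : ℝ) < u := by exact_mod_cast hu0
    have h24 : 24 * M ^ 2 ≤ NN x * x ^ 2 := by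
      refine le_trans ?_ hxN
      have : M ^ 2 ≤ M ^ 3 := Nat.pow_le_pow_right hM (by norm_num)
      omega
    have hku : 2 * M * (n u * u) ≤ NN x * x ^ 2 := by
      refine le_trans ?_ hxN
      have h5 : n u * u ≤ n u * u ^ 2 := Nat.mul_le_mul_left _ (by nlinarith)
      calc 2 * M * (n u * u) ≤ 2 * M * (24 * M ^ 2) := Nat.mul_le_mul_left _ (h5.trans hu2)
        _ = 48 * M ^ 3 := by ring
    have h2 : Fill (4 * (M : ℝ)) (Multiset.replicate (n u) (u : ℝ) +
        Multiset.replicate (NN x) (x : ℝ)) :=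
      Fill.host hx0' (by exact_mod_cast hxM) hu0' (by exact_mod_cast huM) hun
        (by exact_mod_cast h24) (by exact_mod_cast hku)
    have h3 := h2.add h1
    have hsum2 : ∑ y ∈ Q, Multiset.replicate (n' y) (y : ℝ) = Multiset.replicate (NN x) (x : ℝ) +
        ∑ y ∈ Q, Multiset.replicate (n'' y) (y : ℝ) := by
      rw [← Finset.add_sum_erase Q _ hx,
        ← Finset.add_sum_erase Q (fun y => Multiset.replicate (n'' y) (y : ℝ)) hx,
        Finset.sum_congr rfl fun y hy => by rw [← hny y hy], ← add_assoc,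
        ← Multiset.replicate_add, hnx]
      congr 2
      omega
    rw [Finset.sum_insert hu, hsum2]
    convert h3 using 1
    abel

/-- all integral multiplicities `l_i ≤ M` with `49 M ^ 4 ≤ ∑ l_i ^ 2` -/
theorem Fits.fourth {c : ℝ} {L : List ℕ} {M : ℕ} (hL : ∀ x ∈ L, 1 ≤ x ∧ x ≤ M)
    (h49 : 49 * M ^ 4 ≤ (L.map fun x => x ^ 2).sum) (hc : 0 < c)
    (hsq : (((L.map fun x => x ^ 2).sum : ℕ) : ℝ) = c ^ 2) :
    Fits c c (L.map fun x : ℕ => (x : ℝ)) := by
  classical
  have hLne : L ≠ [] := by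
    rintro rfl
    simp at hsq
    have : 0 < c ^ 2 := by positivity
    rw [← hsq] at this
    exact lt_irrefl _ this
  obtain ⟨x₀, hx₀⟩ := List.exists_mem_of_ne_nil L hLne
  have hM : 1 ≤ M := (hL x₀ hx₀).1.trans (hL x₀ hx₀).2
  have hsq' : ((L.map fun x : ℕ => (x : ℝ)).map fun x => x ^ 2).sum = c ^ 2 := by
    rw [← hsq]
    have : ∀ l : List ℕ, ((l.map fun x : ℕ => (x : ℝ)).map fun x => x ^ 2).sum =
        (((l.map fun x => x ^ 2).sum : ℕ) : ℝ) := by
      intro l
      induction l with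
      | nil => simp
      | cons a l ih =>
        rw [List.map_cons, List.map_cons, List.sum_cons, ih, List.map_cons, List.sum_cons]
        push_cast
        ring
    exact this L
  rcases Nat.lt_or_ge M 2 with hM2 | hM2
  · -- all multiplicities are one
    have hM1 : M = 1 := by omega
    subst hM1
    have h1 : L = List.replicate L.length 1 :=
      List.eq_replicate_of_mem fun x hx => by have := hL x hx; omega
    obtain ⟨s, hs⟩ : ∃ s, s = L.length := ⟨_, rfl⟩
    rw [← hs] at h1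
    subst h1
    have h2 : (s : ℝ) = c ^ 2 := by
      rw [← hsq]
      simp
    have h3 : 49 ≤ s := by simpa using h49
    have h4 := Fits.row (h := 1) one_pos s (by omega)
    have e : (List.replicate s 1).map (fun x : ℕ => (x : ℝ)) = List.replicate s (1 : ℝ) := by
      rw [List.map_replicate]; simp
    rw [e]
    refine Fits.squeezeSquare c _ _ _ hc ?_ ?_ h4
    · rw [h2]; ring
    · have h5 : (3 : ℝ) ^ 2 ≤ c ^ 2 := by
        rw [← h2]
        have : (49 : ℝ) ≤ s := by exact_mod_cast h3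
        linarith
      have := (pow_le_pow_iff_left₀ (by norm_num) hc.le (by norm_num)).1 h5
      linarith
  · obtain ⟨V, hV⟩ : ∃ V : Finset ℕ, V = L.toFinset := ⟨_, rfl⟩
    have hVm : ∀ x ∈ V, 1 ≤ x ∧ x ≤ M := by
      intro x hx
      rw [hV, List.mem_toFinset] at hx
      exact hL x hx
    have hcard : V.card ≤ M := by
      have h1 : V ⊆ Finset.Icc 1 M := fun x hx => Finset.mem_Icc.2 (hVm x hx)
      have := Finset.card_le_card h1
      simpa using this
    obtain ⟨n, hn⟩ : ∃ n : ℕ → ℕ, ∀ x, n x = L.count x := ⟨_, fun _ => rfl⟩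
    obtain ⟨rr, hrr⟩ : ∃ rr : ℕ → ℕ, ∀ x, rr x = 24 * M ^ 2 / x ^ 2 + 1 := ⟨_, fun _ => rfl⟩
    obtain ⟨NN, hNN⟩ : ∃ NN : ℕ → ℕ, ∀ x, NN x = 48 * M ^ 3 / x ^ 2 + 1 := ⟨_, fun _ => rfl⟩
    have hpos : ∀ x ∈ V, 0 < x ^ 2 := fun x hx => pow_pos (hVm x hx).1 2
    have hx2 : ∀ x ∈ V, x ^ 2 ≤ M ^ 2 := fun x hx => Nat.pow_le_pow_left (hVm x hx).2 2
    have hM23 : M ^ 2 ≤ M ^ 3 := Nat.pow_le_pow_right hM (by norm_num)
    have hrr1 : ∀ x ∈ V, 24 * M ^ 2 ≤ rr x * x ^ 2 ∧ rr x * x ^ 2 ≤ 25 * M ^ 2 := by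
      intro x hx
      have h1 : 24 * M ^ 2 < x ^ 2 * (24 * M ^ 2 / x ^ 2 + 1) := Nat.lt_mul_div_succ _ (hpos x hx)
      have h2 : 24 * M ^ 2 / x ^ 2 * x ^ 2 ≤ 24 * M ^ 2 := Nat.div_mul_le_self _ _
      have h3 := hx2 x hx
      rw [hrr]
      constructor
      · nlinarith
      · nlinarith
    have hNN1 : ∀ x ∈ V, 48 * M ^ 3 ≤ NN x * x ^ 2 ∧ NN x * x ^ 2 ≤ 49 * M ^ 3 := by
      intro x hx
      have h1 : 48 * M ^ 3 < x ^ 2 * (48 * M ^ 3 / x ^ 2 + 1) := Nat.lt_mul_div_succ _ (hpos x hx)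
      have h2 : 48 * M ^ 3 / x ^ 2 * x ^ 2 ≤ 48 * M ^ 3 := Nat.div_mul_le_self _ _
      have h3 := hx2 x hx
      rw [hNN]
      constructor
      · nlinarith
      · nlinarith
    have hn1 : ∀ x ∈ V, 1 ≤ n x := by
      intro x hx
      rw [hV, List.mem_toFinset] at hx
      rw [hn]
      exact List.count_pos_iff.2 hx
    -- the total
    have htot : ∑ x ∈ V, n x * x ^ 2 = (L.map fun x => x ^ 2).sum := by
      rw [Finset.sum_list_map_count, hV]
      exact Finset.sum_congr rfl fun x _ => by rw [hn, smul_eq_mul]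
    obtain ⟨R, hR⟩ : ∃ R : Finset ℕ, R = V.filter fun x => n x < rr x := ⟨_, rfl⟩
    obtain ⟨Q, hQ⟩ : ∃ Q : Finset ℕ, Q = V.filter fun x => ¬ n x < rr x := ⟨_, rfl⟩
    have hRQ : R.card + Q.card = V.card := by
      rw [hR, hQ]
      exact Finset.card_filter_add_card_filter_not _
    have hRm : ∀ u ∈ R, 1 ≤ u ∧ u ≤ M ∧ 1 ≤ n u ∧ n u * u ^ 2 ≤ 24 * M ^ 2 := by
      intro u hu
      rw [hR, Finset.mem_filter] at hu
      refine ⟨(hVm u hu.1).1, (hVm u hu.1).2, hn1 u hu.1, ?_⟩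
      have h1 : n u ≤ 24 * M ^ 2 / u ^ 2 := by
        have := hu.2
        rw [hrr] at this
        omega
      exact (Nat.mul_le_mul_right _ h1).trans (Nat.div_mul_le_self _ _)
    have hQm : ∀ x ∈ Q, x ∈ V ∧ rr x ≤ n x := by
      intro x hx
      rw [hQ, Finset.mem_filter] at hx
      exact ⟨hx.1, not_lt.1 hx.2⟩
    have hcap : R.card ≤ ∑ x ∈ Q, (n x - rr x) / NN x := by
      by_contra hlt
      push Not at hlt
      have hq : ∀ x ∈ Q, n x * x ^ 2 ≤ 25 * M ^ 2 + ((n x - rr x) / NN x + 1) * (49 * M ^ 3) := by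
        intro x hx
        obtain ⟨hxV, hxr⟩ := hQm x hx
        have hN0 : 0 < NN x := by rw [hNN]; exact Nat.succ_pos _
        have h1 : n x - rr x < NN x * ((n x - rr x) / NN x + 1) := Nat.lt_mul_div_succ _ hN0
        have h2 : n x ≤ rr x + NN x * ((n x - rr x) / NN x + 1) := by omega
        calc n x * x ^ 2 ≤ (rr x + NN x * ((n x - rr x) / NN x + 1)) * x ^ 2 :=
              Nat.mul_le_mul_right _ h2
          _ = rr x * x ^ 2 + ((n x - rr x) / NN x + 1) * (NN x * x ^ 2) := by ring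
          _ ≤ _ := Nat.add_le_add (hrr1 x hxV).2 (Nat.mul_le_mul_left _ (hNN1 x hxV).2)
      have h1 : ∑ x ∈ V, n x * x ^ 2 = ∑ x ∈ R, n x * x ^ 2 + ∑ x ∈ Q, n x * x ^ 2 := by
        rw [hR, hQ]
        exact (Finset.sum_filter_add_sum_filter_not _ _ _).symm
      have h2 : ∑ x ∈ R, n x * x ^ 2 ≤ R.card * (25 * M ^ 2) := by
        calc _ ≤ ∑ x ∈ R, 25 * M ^ 2 := Finset.sum_le_sum fun x hx => by
              have := (hRm x hx).2.2.2
              omega
          _ = _ := by rw [Finset.sum_const, smul_eq_mul]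
      have h3 : ∑ x ∈ Q, n x * x ^ 2 ≤ Q.card * (25 * M ^ 2) +
          (∑ x ∈ Q, (n x - rr x) / NN x + Q.card) * (49 * M ^ 3) := by
        calc _ ≤ ∑ x ∈ Q, (25 * M ^ 2 + ((n x - rr x) / NN x + 1) * (49 * M ^ 3)) :=
              Finset.sum_le_sum hq
          _ = _ := by
              rw [Finset.sum_add_distrib, Finset.sum_const, smul_eq_mul, ← Finset.sum_mul,
                Finset.sum_add_distrib, Finset.sum_const, smul_eq_mul, mul_one]
      have h4 : (∑ x ∈ Q, (n x - rr x) / NN x + Q.card) + 1 ≤ M := by omega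
      have h5 : (∑ x ∈ Q, (n x - rr x) / NN x + Q.card) * (49 * M ^ 3) + 49 * M ^ 3 ≤
          49 * M ^ 4 := by
        calc _ = ((∑ x ∈ Q, (n x - rr x) / NN x + Q.card) + 1) * (49 * M ^ 3) := by ring
          _ ≤ M * (49 * M ^ 3) := Nat.mul_le_mul_right _ h4
          _ = 49 * M ^ 4 := by ring
      have h6 : R.card * (25 * M ^ 2) + Q.card * (25 * M ^ 2) ≤ 25 * M ^ 3 := by
        calc _ = (R.card + Q.card) * (25 * M ^ 2) := by ring
          _ ≤ M * (25 * M ^ 2) := Nat.mul_le_mul_right _ (by omega)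
          _ = 25 * M ^ 3 := by ring
      have h7 : 0 < M ^ 3 := pow_pos hM 3
      omega
    have hfill := Fill.distribute (M := M) hM (R := R) (Q := Q) (n := n) (rr := rr) (NN := NN) hRm
      (fun x hx => by
        obtain ⟨hxV, -⟩ := hQm x hx
        exact ⟨(hVm x hxV).1, (hVm x hxV).2, (hrr1 x hxV).1, (hNN1 x hxV).1⟩)
      R (Finset.Subset.refl _) n (fun x hx => (hQm x hx).2) hcap
    have hmul : ((List.map (fun x : ℕ => (x : ℝ)) L : List ℝ) : Multiset ℝ) =
        ∑ u ∈ R, Multiset.replicate (n u) (u : ℝ) + ∑ x ∈ Q, Multiset.replicate (n x) (x : ℝ) := by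
      have h1 := Multiset.toFinset_sum_count_nsmul_eq (L : Multiset ℕ)
      simp only [Multiset.coe_count, Multiset.nsmul_singleton] at h1
      have h2 : (L : Multiset ℕ).toFinset = V := by rw [hV]; rfl
      rw [h2] at h1
      have e2 : ∀ W : Finset ℕ, Multiset.map (fun x : ℕ => (x : ℝ))
          (∑ w ∈ W, Multiset.replicate (L.count w) w) =
          ∑ w ∈ W, Multiset.replicate (n w) (w : ℝ) := by
        intro W
        induction W using Finset.induction_on with
        | empty => simp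
        | insert w W hw ih =>
          rw [Finset.sum_insert hw, Finset.sum_insert hw, Multiset.map_add, ih,
            Multiset.map_replicate, hn]
      rw [← Multiset.map_coe, ← h1, e2, hR, hQ]
      exact (Finset.sum_filter_add_sum_filter_not _ _ _).symm
    rw [← hmul] at hfill
    have hM' : (0 : ℝ) < M := by exact_mod_cast hM
    refine Fill.fits hM' (by simpa using hLne) hsq' ?_ hfill
    have h3 : 144 * M ^ 2 ≤ (L.map fun x => x ^ 2).sum := by
      refine le_trans ?_ h49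
      have h4 : M ^ 4 = M ^ 2 * M ^ 2 := by ring
      have h5 : 4 ≤ M ^ 2 := by nlinarith
      nlinarith
    have h5 : (12 * (M : ℝ)) ^ 2 ≤ c ^ 2 := by
      rw [← hsq]
      have h6 : ((144 * M ^ 2 : ℕ) : ℝ) ≤ (((L.map fun x => x ^ 2).sum : ℕ) : ℝ) := by
        exact_mod_cast h3
      push_cast at h6 ⊢
      linarith
    exact (pow_le_pow_iff_left₀ (by positivity) hc.le (by norm_num)).1 h5

end Pool.Agent.TH366.RC
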