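import Pool.Agent.TH366.RC.Smallest

/-! Real multiplicities each of which is repeated often or at least twice a frequent one. -/

set_option autoImplicit false

namespace Pool.Agent.TH366.RC

open Finset

/-- one frequent value in a rectangle of height `2 M` -/
theorem Fits.frequent {w M : ℝ} {n : ℕ} (hw : 0 < w) (hwM : w ≤ M) (hn : 6 * M ^ 2 ≤ n * w ^ 2) :
    FitsM (n * w ^ 2 / (2 * M)) (2 * M) (Multiset.replicate n w) := by
  have hM : 0 < M := by linarith
  refine ⟨List.replicate n w, Multiset.coe_replicate _ _, Fits.block (by positivity) hw ?_ ?_ ?_⟩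
  · field_simp
  · linarith
  · nlinarith

/-- one rare value, together with `N` copies of `v`, in a rectangle of height `2 M` -/
theorem Fits.rare {v w M : ℝ} {n N : ℕ} (hv : 0 < v) (hvw : 2 * v ≤ w) (hwM : w ≤ M) (hn : 1 ≤ n)
    (hN : 6 * M ^ 2 ≤ N * v ^ 2) :
    FitsM ((n * w ^ 2 + N * v ^ 2) / (2 * M)) (2 * M)
      (Multiset.replicate n w + Multiset.replicate N v) := by
  have hw : 0 < w := by linarith
  have hM : 0 < M := by linarith
  have h1 : Fits ((N : ℝ) * v ^ 2 / w) w (List.replicate N v) :=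
    Fits.block hw hv (by field_simp) hvw (by nlinarith)
  have h2 := Fits.join _ _ _ _ _ (Fits.row hw n hn) h1
  have e : (n : ℝ) * w + N * v ^ 2 / w = (n * w ^ 2 + N * v ^ 2) / w := by
    field_simp
  rw [e] at h2
  have hA : 0 < (n : ℝ) * w ^ 2 + N * v ^ 2 := by
    have : 0 < M ^ 2 := by positivity
    have : 0 ≤ (n : ℝ) * w ^ 2 := by positivity
    linarith
  refine ⟨_, ?_, Fits.squeeze _ _ _ _ _ (by positivity) (by positivity) (by field_simp)
    (by linarith) ?_ h2⟩
  · rw [← Multiset.coe_add, Multiset.coe_replicate, Multiset.coe_replicate]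
  · rw [← mul_div_assoc, le_div_iff₀ (by positivity)]
    have : 0 ≤ (n : ℝ) * w ^ 2 := by positivity
    nlinarith

/-- every side is equal to `v`, or at least `2 v`, or frequent -/
theorem Fits.mixed {c v M : ℝ} {L : List ℝ} {N : ℕ} (hv : 0 < v)
    (hL : ∀ x ∈ L, 0 < x ∧ x ≤ M)
    (hx : ∀ x ∈ L, x = v ∨ 2 * v ≤ x ∨ 6 * M ^ 2 ≤ (L.count x : ℝ) * x ^ 2)
    (hN : 6 * M ^ 2 ≤ N * v ^ 2)
    (hr : ((L.toFinset.filter fun x => x ≠ v ∧ (L.count x : ℝ) * x ^ 2 < 6 * M ^ 2).card + 1) * N ≤
      L.count v)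
    (hc : 6 * M ≤ c) (hsq : (L.map fun x => x ^ 2).sum = c ^ 2) (hvL : v ∈ L) :
    Fits c c L := by
  classical
  obtain ⟨-, hvM⟩ := hL v hvL
  have hM : 0 < M := by linarith
  have hc0 : 0 < c := by linarith
  obtain ⟨W, hW⟩ : ∃ W : Finset ℝ, W = L.toFinset.erase v := ⟨_, rfl⟩
  have hWm : ∀ w ∈ W, w ∈ L ∧ w ≠ v := by
    intro w hw
    rw [hW, Finset.mem_erase, List.mem_toFinset] at hw
    exact ⟨hw.2, hw.1⟩
  obtain ⟨ρ, hρ⟩ : ∃ ρ : ℝ → ℕ, ∀ w, ρ w = if (L.count w : ℝ) * w ^ 2 < 6 * M ^ 2 then N else 0 :=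
    ⟨_, fun _ => rfl⟩
  have hsum : ∑ w ∈ W, ρ w =
      (L.toFinset.filter fun x => x ≠ v ∧ (L.count x : ℝ) * x ^ 2 < 6 * M ^ 2).card * N := by
    have h1 : (L.toFinset.filter fun x => x ≠ v ∧ (L.count x : ℝ) * x ^ 2 < 6 * M ^ 2) =
        W.filter fun x => (L.count x : ℝ) * x ^ 2 < 6 * M ^ 2 := by
      ext x
      simp only [hW, Finset.mem_filter, Finset.mem_erase]
      tauto
    rw [h1, Finset.card_filter, Finset.sum_mul]
    refine Finset.sum_congr rfl fun w _ => ?_
    rw [hρ]
    split_ifs <;> simp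
  obtain ⟨l, hl⟩ : ∃ l : ℕ, l + ∑ w ∈ W, ρ w = L.count v := by
    refine ⟨L.count v - ∑ w ∈ W, ρ w, ?_⟩
    have : ∑ w ∈ W, ρ w ≤ L.count v := by
      rw [hsum]
      nlinarith
    omega
  have hlN : N ≤ l := by
    rw [hsum] at hl
    nlinarith
  have hlv : 6 * M ^ 2 ≤ l * v ^ 2 := by
    have h1 : (N : ℝ) ≤ l := by exact_mod_cast hlN
    have h2 : (N : ℝ) * v ^ 2 ≤ l * v ^ 2 := mul_le_mul_of_nonneg_right h1 (by positivity)
    linarith
  have key : ∀ V : Finset ℝ, V ⊆ W →
      FitsM ((l * v ^ 2 + ∑ w ∈ V, ((L.count w : ℝ) * w ^ 2 + ρ w * v ^ 2)) / (2 * M))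
        (2 * M) (Multiset.replicate l v + ∑ w ∈ V,
          (Multiset.replicate (L.count w) w + Multiset.replicate (ρ w) v)) := by
    intro V
    induction V using Finset.induction_on with
    | empty =>
      intro _
      simp only [Finset.sum_empty, add_zero]
      exact Fits.frequent hv hvM hlv
    | insert w V hwV ih =>
      intro hV
      have hwW : w ∈ W := hV (Finset.mem_insert_self _ _)
      obtain ⟨hwL, hwv⟩ := hWm w hwW
      obtain ⟨hw0, hwM⟩ := hL w hwL
      have h1 := ih fun x hx => hV (Finset.mem_insert_of_mem hx)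
      have h3 : FitsM (((L.count w : ℝ) * w ^ 2 + ρ w * v ^ 2) / (2 * M)) (2 * M)
          (Multiset.replicate (L.count w) w + Multiset.replicate (ρ w) v) := by
        rw [hρ]
        split_ifs with h4
        · refine Fits.rare hv ?_ hwM (List.count_pos_iff.2 hwL) hN
          rcases hx w hwL with h5 | h5 | h5
          · exact absurd h5 hwv
          · exact h5
          · exact absurd h4 (not_lt.2 h5)
        · have := Fits.frequent hw0 hwM (not_lt.1 h4)
          simpa using this
      have h4 := h1.join h3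
      rw [Finset.sum_insert hwV, Finset.sum_insert hwV]
      rw [← add_div] at h4
      convert h4 using 1
      · ring
      · abel
  obtain ⟨L', hL', hF⟩ := key W (Finset.Subset.refl _)
  have hmul : (L : Multiset ℝ) = Multiset.replicate (L.count v) v +
      ∑ w ∈ W, Multiset.replicate (L.count w) w := by
    have h1 := Multiset.toFinset_sum_count_nsmul_eq (L : Multiset ℝ)
    have h2 : (L : Multiset ℝ).toFinset = insert v W := by
      rw [hW, Finset.insert_erase (List.mem_toFinset.2 hvL)]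
      rfl
    rw [h2, Finset.sum_insert (by rw [hW]; exact Finset.notMem_erase _ _)] at h1
    simp only [Multiset.coe_count, Multiset.nsmul_singleton] at h1
    exact h1.symm
  have hmul' : (L : Multiset ℝ) = (L' : Multiset ℝ) := by
    rw [hL', hmul, Finset.sum_add_distrib, ← hl, Multiset.replicate_add]
    have e3 : Multiset.replicate (∑ w ∈ W, ρ w) v = ∑ w ∈ W, Multiset.replicate (ρ w) v := by
      simp only [← Multiset.nsmul_singleton]
      rw [Finset.sum_smul]
    rw [e3]
    abel
  have hA : l * v ^ 2 + ∑ w ∈ W, ((L.count w : ℝ) * w ^ 2 + ρ w * v ^ 2) = c ^ 2 := by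
    have h1 : ((L : Multiset ℝ).map fun x => x ^ 2).sum = (L.map fun x => x ^ 2).sum := by
      rw [Multiset.map_coe, Multiset.sum_coe]
    rw [← hsq, ← h1, hmul, Multiset.map_add, Multiset.map_replicate, Multiset.sum_add,
      Multiset.sum_replicate, nsmul_eq_mul, ← hl]
    have e2 : ∀ V : Finset ℝ, (Multiset.map (fun x : ℝ => x ^ 2)
        (∑ w ∈ V, Multiset.replicate (L.count w) w)).sum = ∑ w ∈ V, (L.count w : ℝ) * w ^ 2 := by
      intro V
      induction V using Finset.induction_on with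
      | empty => simp
      | insert w V hw ih =>
        rw [Finset.sum_insert hw, Finset.sum_insert hw, Multiset.map_add, Multiset.sum_add, ih,
          Multiset.map_replicate, Multiset.sum_replicate, nsmul_eq_mul]
    rw [e2, Finset.sum_add_distrib, ← Finset.sum_mul]
    push_cast
    ring
  rw [hA] at hF
  refine Fits.perm _ _ _ _ (Multiset.coe_eq_coe.1 hmul'.symm) ?_
  exact Fits.squeezeSquare c _ _ _ hc0 (by field_simp) (by linarith) hF

end Pool.Agent.TH366.RC
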