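import Pool.Agent.TH366.RC.Chain

/-! Integral multiplicities the smallest of which occurs often. -/

set_option autoImplicit false

namespace Pool.Agent.TH366.RC

open Finset

/-- `t w ^ 2` squares with side `v` in a rectangle of height `w ≥ v`, integers -/
theorem Fits.lift {v w t : ℕ} (hv : 1 ≤ v) (hvw : v ≤ w) (ht : 1 ≤ t) :
    Fits ((t : ℝ) * w * v ^ 2) w (List.replicate (t * w ^ 2) (v : ℝ)) := by
  have hv' : (0 : ℝ) < v := by exact_mod_cast hv
  have hw' : (0 : ℝ) < w := by exact_mod_cast (by omega : 0 < w)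
  have ht' : (0 : ℝ) < t := by exact_mod_cast ht
  have h1 := Fits.row hv' (t * w ^ 2) (Nat.mul_pos ht (pow_pos (by omega) 2))
  obtain ⟨z, hz⟩ : ∃ z, w = v + z := ⟨w - v, by omega⟩
  refine Fits.move _ _ _ 1 (t * v * z) (by positivity) hw' le_rfl (by simp) ?_
  have e1 : ((1 : ℕ) : ℝ) * ((t : ℝ) * w * v ^ 2) + ((t * v * z : ℕ) : ℝ) * w =
      ((t * w ^ 2 : ℕ) : ℝ) * v := by
    have : (w : ℝ) = v + z := by exact_mod_cast hz
    push_cast
    rw [this]
    ring
  rw [e1]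
  have e2 : (t : ℝ) * w * v ^ 2 * w / (((t * w ^ 2 : ℕ) : ℝ) * v) = v := by
    push_cast
    field_simp
  rw [e2]
  exact h1

/-- the multiset version -/
def FitsM (b h : ℝ) (s : Multiset ℝ) : Prop := ∃ L : List ℝ, (L : Multiset ℝ) = s ∧ Fits b h L

theorem FitsM.join {b b' h : ℝ} {s s' : Multiset ℝ} (h1 : FitsM b h s) (h2 : FitsM b' h s') :
    FitsM (b + b') h (s + s') := by
  obtain ⟨L, rfl, hL⟩ := h1
  obtain ⟨L', rfl, hL'⟩ := h2
  exact ⟨L ++ L', by simp, hL.join _ _ _ _ _ hL'⟩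

/-- the group of one value `w`, in a rectangle of height `s` -/
theorem Fits.value {v w t n M : ℕ} (hv : 1 ≤ v) (hvw : v ≤ w) (hwM : w ≤ M) (ht : 1 ≤ t)
    (hM : 6 * M ^ 2 ≤ t * w ^ 2 * v ^ 2) :
    FitsM (((n * w ^ 2 + t * w ^ 2 * v ^ 2 : ℕ) : ℝ) / (2 * M)) (2 * M)
      (Multiset.replicate n (w : ℝ) + Multiset.replicate (t * w ^ 2) (v : ℝ)) := by
  have hw' : (0 : ℝ) < w := by exact_mod_cast (by omega : 0 < w)
  have hM' : (0 : ℝ) < M := by exact_mod_cast (by omega : 0 < M)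
  have hwM' : (w : ℝ) ≤ M := by exact_mod_cast hwM
  have h1 := Fits.lift hv hvw ht
  have h2 : Fits (((n * w ^ 2 + t * w ^ 2 * v ^ 2 : ℕ) : ℝ) / w) w
      (List.replicate n (w : ℝ) ++ List.replicate (t * w ^ 2) (v : ℝ)) := by
    rcases Nat.eq_zero_or_pos n with hn | hn
    · subst hn
      have e : (((0 * w ^ 2 + t * w ^ 2 * v ^ 2 : ℕ) : ℝ) / w) = (t : ℝ) * w * v ^ 2 := by
        push_cast
        field_simp
        ring
      rw [e]
      simpa using h1
    · have h3 := Fits.join _ _ _ _ _ (Fits.row hw' n hn) h1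
      have e : (((n * w ^ 2 + t * w ^ 2 * v ^ 2 : ℕ) : ℝ) / w) = n * w + (t : ℝ) * w * v ^ 2 := by
        push_cast
        field_simp
      rw [e]
      exact h3
  refine ⟨_, ?_, Fits.squeeze _ _ _ _ _ ?_ (by positivity) ?_ ?_ ?_ h2⟩
  · rw [← Multiset.coe_add, Multiset.coe_replicate, Multiset.coe_replicate]
  · have : 0 < n * w ^ 2 + t * w ^ 2 * v ^ 2 :=
      Nat.add_pos_right _ (Nat.mul_pos (Nat.mul_pos ht (pow_pos (by omega) 2))
        (pow_pos (by omega) 2))
    have : (0 : ℝ) < ((n * w ^ 2 + t * w ^ 2 * v ^ 2 : ℕ) : ℝ) := by exact_mod_cast this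
    positivity
  · field_simp
  · linarith
  · have h6 : ((6 * M ^ 2 : ℕ) : ℝ) ≤ ((n * w ^ 2 + t * w ^ 2 * v ^ 2 : ℕ) : ℝ) := by
      exact_mod_cast (by omega : 6 * M ^ 2 ≤ n * w ^ 2 + t * w ^ 2 * v ^ 2)
    rw [← mul_div_assoc, le_div_iff₀ (by positivity)]
    have e : ((6 * M ^ 2 : ℕ) : ℝ) = 6 * (M : ℝ) ^ 2 := by push_cast; ring
    rw [e] at h6
    nlinarith

/-- integral multiplicities between `v` and `M`, where `v` occurs at least `43 M ^ 3` times -/
theorem Fits.smallest {c : ℝ} {L : List ℕ} {v M : ℕ} (hv : 1 ≤ v)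
    (hL : ∀ x ∈ L, v ≤ x ∧ x ≤ M) (hr : 43 * M ^ 3 ≤ L.count v) (hc : 0 < c)
    (hsq : (((L.map fun x => x ^ 2).sum : ℕ) : ℝ) = c ^ 2) :
    Fits c c (L.map fun x : ℕ => (x : ℝ)) := by
  classical
  have hM : 1 ≤ M := by
    rcases L with _ | ⟨x, L⟩
    · exfalso
      simp at hsq
      have : 0 < c ^ 2 := by positivity
      rw [← hsq] at this
      exact lt_irrefl _ this
    · have := hL x (by simp)
      omega
  obtain ⟨t, ht⟩ : ∃ t : ℕ → ℕ, ∀ w, t w = 6 * M ^ 2 / w ^ 2 + 1 := ⟨_, fun _ => rfl⟩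
  have ht1 : ∀ w, 1 ≤ t w := fun w => by rw [ht]; exact Nat.le_add_left 1 _
  obtain ⟨W, hW⟩ : ∃ W : Finset ℕ, W = L.toFinset.erase v := ⟨_, rfl⟩
  have hWm : ∀ w ∈ W, v ≤ w ∧ w ≤ M := by
    intro w hw
    rw [hW, Finset.mem_erase, List.mem_toFinset] at hw
    exact hL w hw.2
  have hWsub : W ⊆ Finset.Icc 1 M := by
    intro w hw
    have := hWm w hw
    rw [Finset.mem_Icc]
    omega
  have hWc : W.card ≤ M := by
    have := Finset.card_le_card hWsub
    simpa using this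
  have htw : ∀ w ∈ W, 6 * M ^ 2 ≤ t w * w ^ 2 ∧ t w * w ^ 2 ≤ 7 * M ^ 2 := by
    intro w hw
    have hw' := hWm w hw
    have hpos : 0 < w ^ 2 := pow_pos (by omega) 2
    have h1 : 6 * M ^ 2 < w ^ 2 * (6 * M ^ 2 / w ^ 2 + 1) := Nat.lt_mul_div_succ _ hpos
    have h2 : 6 * M ^ 2 / w ^ 2 * w ^ 2 ≤ 6 * M ^ 2 := Nat.div_mul_le_self _ _
    have h3 : w ^ 2 ≤ M ^ 2 := Nat.pow_le_pow_left hw'.2 2
    rw [ht]
    constructor
    · nlinarith
    · nlinarith
  have hsum : ∑ w ∈ W, t w * w ^ 2 ≤ 7 * M ^ 3 := by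
    calc ∑ w ∈ W, t w * w ^ 2 ≤ ∑ w ∈ W, 7 * M ^ 2 := Finset.sum_le_sum fun w hw => (htw w hw).2
      _ = W.card * (7 * M ^ 2) := by rw [Finset.sum_const, smul_eq_mul]
      _ ≤ M * (7 * M ^ 2) := Nat.mul_le_mul_right _ hWc
      _ = 7 * M ^ 3 := by ring
  obtain ⟨l, hl⟩ : ∃ l : ℕ, l + ∑ w ∈ W, t w * w ^ 2 = L.count v :=
    ⟨L.count v - ∑ w ∈ W, t w * w ^ 2, by omega⟩
  have hM3 : M ^ 2 ≤ M ^ 3 := Nat.pow_le_pow_right hM (by norm_num)
  have hl36 : 36 * M ^ 2 ≤ l := by omega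
  have hlv : 36 * M ^ 2 ≤ l * v ^ 2 := by
    have : 1 ≤ v ^ 2 := Nat.one_le_pow _ _ hv
    nlinarith
  have hvL : v ∈ L := by
    rw [← List.count_pos_iff]
    have : 0 < M ^ 3 := pow_pos hM 3
    omega
  have hvM : v ≤ M := (hL v hvL).2
  have hv' : (0 : ℝ) < v := by exact_mod_cast hv
  have hM' : (0 : ℝ) < M := by exact_mod_cast hM
  have hvM' : (v : ℝ) ≤ M := by exact_mod_cast hvM
  have hlv' : 36 * (M : ℝ) ^ 2 ≤ l * (v : ℝ) ^ 2 := by exact_mod_cast hlv
  -- the rectangle of height `2 M`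
  have key : ∀ V : Finset ℕ, V ⊆ W →
      FitsM (((l * v ^ 2 + ∑ w ∈ V, (L.count w * w ^ 2 + t w * w ^ 2 * v ^ 2) : ℕ) : ℝ) / (2 * M))
        (2 * M) (Multiset.replicate l (v : ℝ) + ∑ w ∈ V,
          (Multiset.replicate (L.count w) (w : ℝ) + Multiset.replicate (t w * w ^ 2) (v : ℝ))) := by
    intro V
    induction V using Finset.induction_on with
    | empty =>
      intro _
      simp only [Finset.sum_empty, add_zero]
      refine ⟨List.replicate l (v : ℝ), Multiset.coe_replicate _ _, Fits.block (by positivity) hv' ?_ ?_ ?_⟩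
      · push_cast
        field_simp
      · linarith
      · nlinarith
    | insert w V hwV ih =>
      intro hV
      have hwW : w ∈ W := hV (Finset.mem_insert_self _ _)
      have h1 := ih fun x hx => hV (Finset.mem_insert_of_mem hx)
      have h2 : 6 * M ^ 2 ≤ t w * w ^ 2 * v ^ 2 := by
        have h3 := (htw w hwW).1
        have : 1 ≤ v ^ 2 := Nat.one_le_pow _ _ hv
        nlinarith
      have h3 := Fits.value (n := L.count w) hv (hWm w hwW).1 (hWm w hwW).2 (ht1 w) h2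
      have h4 := h1.join h3
      rw [Finset.sum_insert hwV, Finset.sum_insert hwV]
      rw [← add_div] at h4
      have e1 : ((l * v ^ 2 + ∑ w ∈ V, (L.count w * w ^ 2 + t w * w ^ 2 * v ^ 2) : ℕ) : ℝ) +
          ((L.count w * w ^ 2 + t w * w ^ 2 * v ^ 2 : ℕ) : ℝ) =
          ((l * v ^ 2 + ((L.count w * w ^ 2 + t w * w ^ 2 * v ^ 2) +
            ∑ w ∈ V, (L.count w * w ^ 2 + t w * w ^ 2 * v ^ 2)) : ℕ) : ℝ) := by
        push_cast
        ring
      rw [e1] at h4
      convert h4 using 1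
      abel
  obtain ⟨L', hL', hF⟩ := key W (Finset.Subset.refl _)
  -- the multiset of the squares
  have hmul : (L : Multiset ℕ) = Multiset.replicate (L.count v) v +
      ∑ w ∈ W, Multiset.replicate (L.count w) w := by
    have h1 := Multiset.toFinset_sum_count_nsmul_eq (L : Multiset ℕ)
    have h2 : (L : Multiset ℕ).toFinset = insert v W := by
      rw [hW, Finset.insert_erase (List.mem_toFinset.2 hvL)]
      rfl
    rw [h2, Finset.sum_insert (by rw [hW]; exact Finset.notMem_erase _ _)] at h1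
    simp only [Multiset.coe_count, Multiset.nsmul_singleton] at h1
    exact h1.symm
  have hmul' : ((List.map (fun x : ℕ => (x : ℝ)) L : List ℝ) : Multiset ℝ) = (L' : Multiset ℝ) := by
    rw [hL', ← Multiset.map_coe, hmul, Multiset.map_add, Multiset.map_replicate,
      Finset.sum_add_distrib, ← hl, Multiset.replicate_add]
    have e2 : ∀ V : Finset ℕ, Multiset.map (fun x : ℕ => (x : ℝ))
        (∑ w ∈ V, Multiset.replicate (L.count w) w) =
        ∑ w ∈ V, Multiset.replicate (L.count w) (w : ℝ) := by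
      intro V
      induction V using Finset.induction_on with
      | empty => simp
      | insert w V hw ih =>
        rw [Finset.sum_insert hw, Finset.sum_insert hw, Multiset.map_add, ih,
          Multiset.map_replicate]
    have e3 : Multiset.replicate (∑ w ∈ W, t w * w ^ 2) (v : ℝ) =
        ∑ w ∈ W, Multiset.replicate (t w * w ^ 2) (v : ℝ) := by
      simp only [← Multiset.nsmul_singleton]
      rw [Finset.sum_smul]
    rw [e2, e3]
    abel
  have hA : l * v ^ 2 + ∑ w ∈ W, (L.count w * w ^ 2 + t w * w ^ 2 * v ^ 2) =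
      (L.map fun x => x ^ 2).sum := by
    have h1 : ((L : Multiset ℕ).map fun x => x ^ 2).sum = (L.map fun x => x ^ 2).sum := by
      rw [Multiset.map_coe, Multiset.sum_coe]
    rw [← h1, hmul, Multiset.map_add, Multiset.map_replicate, Multiset.sum_add,
      Multiset.sum_replicate, smul_eq_mul, ← hl]
    have e2 : ∀ V : Finset ℕ, (Multiset.map (fun x : ℕ => x ^ 2)
        (∑ w ∈ V, Multiset.replicate (L.count w) w)).sum = ∑ w ∈ V, L.count w * w ^ 2 := by
      intro V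
      induction V using Finset.induction_on with
      | empty => simp
      | insert w V hw ih =>
        rw [Finset.sum_insert hw, Finset.sum_insert hw, Multiset.map_add, Multiset.sum_add, ih,
          Multiset.map_replicate, Multiset.sum_replicate, smul_eq_mul]
    rw [e2, Finset.sum_add_distrib, add_mul, Finset.sum_mul]
    ring
  rw [hA, hsq] at hF
  have h6 : 6 * (M : ℝ) ≤ c := by
    have h7 : l * v ^ 2 ≤ (L.map fun x => x ^ 2).sum := by rw [← hA]; exact Nat.le_add_right _ _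
    have h8 : (l : ℝ) * (v : ℝ) ^ 2 ≤ c ^ 2 := by
      rw [← hsq]
      exact_mod_cast h7
    have h9 : (6 * (M : ℝ)) ^ 2 ≤ c ^ 2 := by nlinarith
    exact (pow_le_pow_iff_left₀ (by positivity) hc.le (by norm_num)).1 h9
  refine Fits.perm _ _ _ _ (Multiset.coe_eq_coe.1 hmul'.symm) ?_
  exact Fits.squeezeSquare c _ _ _ hc (by field_simp) (by linarith) hF

end Pool.Agent.TH366.RC
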